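import Pool.Agent.H84.PP.Lst

/-!
MP_3b0ce5_lc: operations on lists of radicands and on signed forms.
-/

set_option autoImplicit false

namespace Pool.Agent.H84.PP

open Pool.Agent.H92.SR Pool.Agent.H92.SR.Tr
open Pool.Agent.H92.SR.FP (rvo rstp rstp_it size_split)

theorem rvo' {X Y : Tr → Tr} (hX : FP X) (hY : FP Y) : FP (fun v => rvo (X v) (Y v)) := by
  have h1 : FP rstp := FP.node' (FP.snd' (FP.fst' FP.id')) (FP.node' (FP.fst' (FP.fst' FP.id')) (FP.snd' FP.id'))
  have h2 := FP.iterate_lin (c := 4) h1 hX (FP.node' hX hY) (fun st => by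
    have e1 := size_split (fst st)
    have e2 := size_split st
    unfold rstp
    simp only [size]
    omega)
  refine Eq.mp (congrArg FP (funext fun v => ?_)) (FP.snd' h2)
  rw [rstp_it]
  rfl

theorem size_rvo (x acc : Tr) : size (rvo x acc) + 1 = size x + size acc := by
  induction x generalizing acc with
  | leaf => simp only [rvo, size]; omega
  | node a b _ ih =>
    rw [rvo]
    have := ih (node a acc)
    simp only [size] at this ⊢
    omega

theorem rv_rvo (x acc : Tr) : rv (rvo x acc) = rv x + rv acc := by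
  induction x generalizing acc with
  | leaf => simp [rvo, rv]
  | node a b _ ih =>
    rw [rvo, ih, rv, rv]
    ring

theorem Al_rvo {Q : ℕ → Prop} (x acc : Tr) : Al Q (rvo x acc) ↔ Al Q x ∧ Al Q acc := by
  induction x generalizing acc with
  | leaf => simp [rvo, Al]
  | node a b _ ih =>
    rw [rvo, ih, Al, Al]
    tauto

theorem Al_mono {Q Q' : ℕ → Prop} (h : ∀ d, Q d → Q' d) {x : Tr} (hx : Al Q x) : Al Q' x := by
  induction x with
  | leaf => trivial
  | node a b _ ih => exact ⟨h _ hx.1, ih hx.2⟩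

/-- concatenation (reversed) of the lists `G (node a ctx)` over the elements `a` of a list -/
def cf (G : Tr → Tr) (ctx : Tr) : Tr → Tr → Tr
  | leaf, acc => acc
  | node a l, acc => cf G ctx l (rvo (G (node a ctx)) acc)

/-- one step, on states `node l (node ctx acc)` -/
def cs (G : Tr → Tr) (st : Tr) : Tr :=
  node (snd (fst st)) (node (fst (snd st)) (rvo (G (node (fst (fst st)) (fst (snd st)))) (snd (snd st))))

/-- the concatenation -/
def catL (G : Tr → Tr) (l ctx : Tr) : Tr := cf G ctx l leaf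

theorem cs_it (G : Tr → Tr) (ctx l : Tr) : ∀ acc : Tr,
    (cs G)^[len l] (node l (node ctx acc)) = node leaf (node ctx (cf G ctx l acc)) := by
  induction l with
  | leaf => exact fun acc => rfl
  | node a l _ ih =>
    intro acc
    rw [len, Function.iterate_succ_apply]
    exact ih (rvo (G (node a ctx)) acc)

theorem catL' {G X Y : Tr → Tr} (hG : FP G) (hX : FP X) (hY : FP Y) : FP (fun v => catL G (X v) (Y v)) := by
  obtain ⟨p, hp⟩ := hG.size_bound
  have hfs : FP (cs G) :=
    FP.node' (FP.snd' (FP.fst' FP.id')) (FP.node' (FP.fst' (FP.snd' FP.id'))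
      (rvo' (FP.comp' hG (FP.node' (FP.fst' (FP.fst' FP.id')) (FP.fst' (FP.snd' FP.id'))))
        (FP.snd' (FP.snd' FP.id'))))
  have h2 := FP.iterate_poly hfs hX (FP.node' hX (FP.node' hY FP.leaf'))
    (3 * Polynomial.X + 3 + Polynomial.X * p.comp (2 * Polynomial.X + 1)) fun st i => by
      have key : ∀ i, size (fst ((cs G)^[i] st)) ≤ size st ∧ size (fst (snd ((cs G)^[i] st))) ≤ size st ∧
          size (snd (snd ((cs G)^[i] st))) ≤ size st + i * p.eval (2 * size st + 1) := by
        intro i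
        induction i with
        | zero =>
          have e1 := size_snd_le st
          have e2 := size_fst_le (snd st)
          have e3 := size_snd_le (snd st)
          have e4 := size_fst_le st
          simp only [Function.iterate_zero, id]
          omega
        | succ i ih =>
          obtain ⟨i1, i2, i3⟩ := ih
          rw [Function.iterate_succ_apply']
          have e4 := size_snd_le (fst ((cs G)^[i] st))
          have e5 := size_fst_le (fst ((cs G)^[i] st))
          have e6 := hp (node (fst (fst ((cs G)^[i] st))) (fst (snd ((cs G)^[i] st))))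
          have e7 : size (node (fst (fst ((cs G)^[i] st))) (fst (snd ((cs G)^[i] st)))) ≤ 2 * size st + 1 := by
            simp only [size]
            omega
          have e8 := poly_mono p e7
          have e9 := size_rvo (G (node (fst (fst ((cs G)^[i] st))) (fst (snd ((cs G)^[i] st)))))
            (snd (snd ((cs G)^[i] st)))
          have e10 : (i + 1) * p.eval (2 * size st + 1) = i * p.eval (2 * size st + 1) + p.eval (2 * size st + 1) := by
            ring
          refine ⟨?_, ?_, ?_⟩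
          · show size (snd (fst ((cs G)^[i] st))) ≤ size st
            omega
          · show size (fst (snd ((cs G)^[i] st))) ≤ size st
            omega
          · show size (rvo (G (node (fst (fst ((cs G)^[i] st))) (fst (snd ((cs G)^[i] st)))))
              (snd (snd ((cs G)^[i] st)))) ≤ size st + (i + 1) * p.eval (2 * size st + 1)
            omega
      obtain ⟨k1, k2, k3⟩ := key i
      have e1 := size_le_split ((cs G)^[i] st)
      have e2 := size_le_split (snd ((cs G)^[i] st))
      have e3 : i * p.eval (2 * size st + 1) ≤ (size st + i) * p.eval (2 * (size st + i) + 1) :=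
        Nat.mul_le_mul (by omega) (poly_mono p (by omega))
      simp only [Polynomial.eval_add, Polynomial.eval_mul, Polynomial.eval_X, Polynomial.eval_one,
        Polynomial.eval_ofNat, Polynomial.eval_comp]
      omega
  refine Eq.mp (congrArg FP (funext fun v => ?_)) (FP.snd' (FP.snd' h2))
  rw [cs_it]
  rfl

/-- the value of the concatenation -/
noncomputable def rvs (G : Tr → Tr) (ctx : Tr) : Tr → ℝ
  | leaf => 0
  | node a l => rv (G (node a ctx)) + rvs G ctx l

theorem rv_cf (G : Tr → Tr) (ctx l : Tr) : ∀ acc : Tr, rv (cf G ctx l acc) = rvs G ctx l + rv acc := by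
  induction l with
  | leaf => exact fun acc => by simp [cf, rvs]
  | node a l _ ih =>
    intro acc
    rw [cf, ih, rv_rvo, rvs]
    ring

theorem rv_catL (G : Tr → Tr) (l ctx : Tr) : rv (catL G l ctx) = rvs G ctx l := by
  rw [catL, rv_cf, rv, add_zero]

theorem Al_cf {P Q : ℕ → Prop} {G : Tr → Tr} {ctx : Tr} (hG : ∀ a, P (vl a) → Al Q (G (node a ctx))) (l : Tr) :
    ∀ acc : Tr, Al P l → Al Q acc → Al Q (cf G ctx l acc) := by
  induction l with
  | leaf => exact fun acc _ h => h
  | node a l _ ih =>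
    intro acc hl hacc
    exact ih _ hl.2 ((Al_rvo _ _).2 ⟨hG a hl.1, hacc⟩)

theorem Al_catL {P Q : ℕ → Prop} {G : Tr → Tr} {ctx : Tr} (hG : ∀ a, P (vl a) → Al Q (G (node a ctx))) {l : Tr}
    (hl : Al P l) : Al Q (catL G l ctx) := Al_cf hG l leaf hl trivial

theorem rvo_leaf (x acc : Tr) : rvo x acc = leaf ↔ x = leaf ∧ acc = leaf := by
  induction x generalizing acc with
  | leaf => simp [rvo]
  | node a b _ ih => rw [rvo, ih]; simp

/-- no element of the list is kept -/
def Nn (G : Tr → Tr) (ctx : Tr) : Tr → Prop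
  | leaf => True
  | node a l => G (node a ctx) = leaf ∧ Nn G ctx l

theorem cf_leaf (G : Tr → Tr) (ctx l : Tr) : ∀ acc : Tr, cf G ctx l acc = leaf ↔ Nn G ctx l ∧ acc = leaf := by
  induction l with
  | leaf => exact fun acc => by simp [cf, Nn]
  | node a l _ ih =>
    intro acc
    rw [cf, ih, rvo_leaf, Nn]
    tauto

theorem catL_leaf (G : Tr → Tr) (ctx l : Tr) : catL G l ctx = leaf ↔ Nn G ctx l := by
  rw [catL, cf_leaf]
  simp

/-! ### products -/

/-- all radicands multiplied by `c` -/
def scl (l c : Tr) : Tr := catL (fun w => node (mul (fst w) (snd w)) leaf) l c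

theorem scl' {X Y : Tr → Tr} (hX : FP X) (hY : FP Y) : FP (fun v => scl (X v) (Y v)) :=
  catL' (FP.node' (mul' (FP.fst' FP.id') (FP.snd' FP.id')) FP.leaf') hX hY

theorem rv_scl (l c : Tr) : rv (scl l c) = √(vl c : ℝ) * rv l := by
  rw [scl, rv_catL]
  induction l with
  | leaf => simp [rvs, rv]
  | node a l _ ih =>
    rw [rvs, ih, rv, rv, rv]
    simp only [fst, snd]
    rw [vl_mul, Nat.cast_mul, Real.sqrt_mul (Nat.cast_nonneg _)]
    ring

theorem Al_scl {P Q : ℕ → Prop} {l c : Tr} (hl : Al P l) (h : ∀ d, P d → Q (d * vl c)) : Al Q (scl l c) := by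
  refine Al_catL (P := P) (fun a ha => ?_) hl
  refine ⟨?_, trivial⟩
  simp only [fst, snd]
  rw [vl_mul]
  exact h _ ha

/-- all products -/
def mulL (x y : Tr) : Tr := catL (fun w => scl (snd w) (fst w)) x y

theorem mulL' {X Y : Tr → Tr} (hX : FP X) (hY : FP Y) : FP (fun v => mulL (X v) (Y v)) :=
  catL' (scl' (FP.snd' FP.id') (FP.fst' FP.id')) hX hY

theorem rv_mulL (x y : Tr) : rv (mulL x y) = rv x * rv y := by
  rw [mulL, rv_catL]
  induction x with
  | leaf => simp [rvs, rv]
  | node a l _ ih =>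
    rw [rvs, ih, rv]
    simp only [fst, snd]
    rw [rv_scl]
    ring

theorem Al_mulL {P P' Q : ℕ → Prop} {x y : Tr} (hx : Al P x) (hy : Al P' y) (h : ∀ d d', P d → P' d' → Q (d' * d)) :
    Al Q (mulL x y) := by
  refine Al_catL (P := P) (fun a ha => ?_) hx
  simp only [fst, snd]
  exact Al_scl hy fun d hd => h _ _ ha hd

/-! ### signed forms -/

/-- sum -/
def fadd (x y : Tr) : Tr := node (rvo (fst x) (fst y)) (rvo (snd x) (snd y))

/-- negative -/
def fneg (x : Tr) : Tr := node (snd x) (fst x)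

/-- multiplication by the square root of `c` -/
def fsc (c x : Tr) : Tr := node (scl (fst x) c) (scl (snd x) c)

/-- product -/
def fmul (x y : Tr) : Tr :=
  node (rvo (mulL (fst x) (fst y)) (mulL (snd x) (snd y))) (rvo (mulL (fst x) (snd y)) (mulL (snd x) (fst y)))

theorem fadd' {X Y : Tr → Tr} (hX : FP X) (hY : FP Y) : FP (fun v => fadd (X v) (Y v)) :=
  FP.node' (rvo' (FP.fst' hX) (FP.fst' hY)) (rvo' (FP.snd' hX) (FP.snd' hY))

theorem fneg' {X : Tr → Tr} (hX : FP X) : FP (fun v => fneg (X v)) := FP.node' (FP.snd' hX) (FP.fst' hX)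

theorem fsc' {X Y : Tr → Tr} (hX : FP X) (hY : FP Y) : FP (fun v => fsc (X v) (Y v)) :=
  FP.node' (scl' (FP.fst' hY) hX) (scl' (FP.snd' hY) hX)

theorem fmul' {X Y : Tr → Tr} (hX : FP X) (hY : FP Y) : FP (fun v => fmul (X v) (Y v)) :=
  FP.node' (rvo' (mulL' (FP.fst' hX) (FP.fst' hY)) (mulL' (FP.snd' hX) (FP.snd' hY)))
    (rvo' (mulL' (FP.fst' hX) (FP.snd' hY)) (mulL' (FP.snd' hX) (FP.fst' hY)))

theorem fv_fadd (x y : Tr) : fv (fadd x y) = fv x + fv y := by
  simp only [fv, fadd, fst, snd, rv_rvo]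
  ring

theorem fv_fneg (x : Tr) : fv (fneg x) = - fv x := by
  simp only [fv, fneg, fst, snd]
  ring

theorem fv_fsc (c x : Tr) : fv (fsc c x) = √(vl c : ℝ) * fv x := by
  simp only [fv, fsc, fst, snd, rv_scl]
  ring

theorem fv_fmul (x y : Tr) : fv (fmul x y) = fv x * fv y := by
  simp only [fv, fmul, fst, snd, rv_rvo, rv_mulL]
  ring

/-- all radicands of a form satisfy `Q` -/
def fAl (Q : ℕ → Prop) (x : Tr) : Prop := Al Q (fst x) ∧ Al Q (snd x)

theorem fAl_fadd {Q : ℕ → Prop} {x y : Tr} (hx : fAl Q x) (hy : fAl Q y) : fAl Q (fadd x y) :=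
  ⟨(Al_rvo _ _).2 ⟨hx.1, hy.1⟩, (Al_rvo _ _).2 ⟨hx.2, hy.2⟩⟩

theorem fAl_fneg {Q : ℕ → Prop} {x : Tr} (hx : fAl Q x) : fAl Q (fneg x) := ⟨hx.2, hx.1⟩

theorem fAl_fsc {P Q : ℕ → Prop} {c x : Tr} (hx : fAl P x) (h : ∀ d, P d → Q (d * vl c)) : fAl Q (fsc c x) :=
  ⟨Al_scl hx.1 h, Al_scl hx.2 h⟩

theorem fAl_fmul {P P' Q : ℕ → Prop} {x y : Tr} (hx : fAl P x) (hy : fAl P' y)
    (h : ∀ d d', P d → P' d' → Q (d' * d)) : fAl Q (fmul x y) :=
  ⟨(Al_rvo _ _).2 ⟨Al_mulL hx.1 hy.1 h, Al_mulL hx.2 hy.2 h⟩, (Al_rvo _ _).2 ⟨Al_mulL hx.1 hy.2 h, Al_mulL hx.2 hy.1 h⟩⟩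

end Pool.Agent.H84.PP
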