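import Pool.Agent.H92.SR.Rnd
import Pool.Agent.H92.SR.Smv

/-!
MP_3b0ce5_lc, nonuniform polynomial time: products and sums over lists in the model of `Pool/Agent/H92/SR`.
-/

set_option autoImplicit false

namespace Pool.Agent.H84.PP

open Pool.Agent.H92.SR Pool.Agent.H92.SR.Tr

/-- one step of the multiplication, on states `node x (node y acc)` -/
def mstep (st : Tr) : Tr :=
  node (snd (fst st)) (node (node leaf (fst (snd st)))
    (if fst (fst st) = leaf then snd (snd st) else add (snd (snd st)) (fst (snd st))))

/-- the product -/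
def mul (x y : Tr) : Tr := snd (snd (mstep^[len x] (node x (node y leaf))))

theorem mstep_it (x : Tr) : ∀ y acc : Tr, ∃ y' acc' : Tr,
    mstep^[len x] (node x (node y acc)) = node leaf (node y' acc') ∧ vl acc' = vl acc + vl x * vl y := by
  induction x with
  | leaf => exact fun y acc => ⟨y, acc, rfl, by simp [vl]⟩
  | node a x _ ih =>
    intro y acc
    obtain ⟨y', acc', h1, h2⟩ := ih (node leaf y) (if a = leaf then acc else add acc y)
    refine ⟨y', acc', ?_, ?_⟩
    · rw [len, Function.iterate_succ_apply]
      exact h1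
    · rw [h2]
      by_cases ha : a = leaf
      · rw [if_pos ha, ha]
        simp only [vl, bt_leaf, nb]
        simp
        ring
      · rw [if_neg ha, vl_add]
        have hb : bt a = true := by simp [bt, ha]
        simp only [vl, bt_leaf, nb, hb]
        simp
        ring

theorem vl_mul (x y : Tr) : vl (mul x y) = vl x * vl y := by
  obtain ⟨y', acc', h1, h2⟩ := mstep_it x y leaf
  unfold mul
  rw [h1]
  simp only [snd]
  rw [h2]
  simp [vl]

/-- sizes of the components of a state with an accumulator `acc`; `B` bounds the length of the summands -/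
theorem acc_bound {F : Tr → Tr} {s : ℕ → ℕ → ℕ} (hmono : ∀ n m : ℕ, ∀ i j : ℕ, n ≤ m → i ≤ j → s n i ≤ s m j)
    (st : Tr)
    (h1 : ∀ i, size (fst (F^[i] st)) ≤ size st)
    (h2 : ∀ i, size (fst (snd (F^[i] st))) ≤ size st + 2 * i)
    (h3 : ∀ i, snd (snd (F^[i + 1] st)) = snd (snd (F^[i] st)) ∨
      ∃ z, len z ≤ s (size st) i ∧ snd (snd (F^[i + 1] st)) = add (snd (snd (F^[i] st))) z) (i : ℕ) :
    size (F^[i] st) ≤ 20 * (size st + i + 1) + 8 * i * (s (size st) i + 1) := by
  have key : ∀ i, len (snd (snd (F^[i] st))) ≤ size st + i * (s (size st) i + 1) ∧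
      size (snd (snd (F^[i] st))) ≤ 5 * size st + 4 * i * (s (size st) i + 1) + 5 := by
    intro i
    induction i with
    | zero =>
      simp only [Function.iterate_zero, id]
      have e1 := size_snd_le st
      have e2 := size_snd_le (snd st)
      have e3 := len_le_size (snd (snd st))
      omega
    | succ i ih =>
      have hm : s (size st) i ≤ s (size st) (i + 1) := hmono _ _ _ _ le_rfl (by omega)
      have hm2 : i * (s (size st) i + 1) ≤ i * (s (size st) (i + 1) + 1) := Nat.mul_le_mul_left _ (by omega)
      have e4 : (i + 1) * (s (size st) (i + 1) + 1) = i * (s (size st) (i + 1) + 1) +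
        (s (size st) (i + 1) + 1) := by ring
      have e5 : 4 * (i + 1) * (s (size st) (i + 1) + 1) = 4 * (i * (s (size st) (i + 1) + 1)) +
        4 * (s (size st) (i + 1) + 1) := by ring
      have e6 : 4 * i * (s (size st) i + 1) = 4 * (i * (s (size st) i + 1)) := by ring
      rcases h3 i with h | ⟨z, hz, h⟩
      · rw [h]
        omega
      · rw [h, len_add]
        have h7 := size_add (snd (snd (F^[i] st))) z
        omega
  have e1 := FP.sz_le (F^[i] st)
  have e2 := FP.sz_le (snd (F^[i] st))
  have e3 := h1 i
  have e4 := h2 i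
  have e5 := (key i).2
  have e6 : 4 * i * (s (size st) i + 1) ≤ 8 * i * (s (size st) i + 1) := Nat.mul_le_mul_right _ (by omega)
  have e7 := size_pos st
  omega

theorem mstep_size (st : Tr) (i : ℕ) :
    size (mstep^[i] st) ≤ (20 * (Polynomial.X + 1) + 8 * Polynomial.X * (2 * Polynomial.X + 1) : Polynomial ℕ).eval
      (size st + i) := by
  have hy : ∀ i, size (fst (snd (mstep^[i] st))) ≤ size st + 2 * i := by
    intro i
    induction i with
    | zero =>
      have e1 := size_snd_le st
      have e2 := size_fst_le (snd st)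
      simpa using e2.trans e1
    | succ i ih =>
      rw [Function.iterate_succ_apply']
      simp only [mstep, FP.fst_nd, FP.snd_nd, size]
      omega
  have h := acc_bound (F := mstep) (s := fun n i => n + 2 * i) (fun n m i j h1 h2 => by
      show n + 2 * i ≤ m + 2 * j
      omega) st (by
    intro i
    induction i with
    | zero => simpa using size_fst_le st
    | succ i ih =>
      rw [Function.iterate_succ_apply']
      simp only [mstep, fst]
      exact (size_snd_le _).trans ih) hy (by
    intro i
    rw [Function.iterate_succ_apply']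
    by_cases h : fst (fst (mstep^[i] st)) = leaf
    · left
      simp only [mstep, snd, if_pos h]
    · right
      refine ⟨fst (snd (mstep^[i] st)), ?_, ?_⟩
      · have e1 := len_le_size (fst (snd (mstep^[i] st)))
        have e2 := hy i
        omega
      · simp only [mstep, snd, if_neg h]) i
  refine h.trans ?_
  simp only [Polynomial.eval_add, Polynomial.eval_mul, Polynomial.eval_X, Polynomial.eval_one,
    Polynomial.eval_ofNat]
  have e1 : 8 * i * (size st + 2 * i + 1) ≤ 8 * (size st + i) * (2 * (size st + i) + 1) :=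
    Nat.mul_le_mul (by omega) (by omega)
  omega

theorem mstep' : FP mstep :=
  FP.node' (FP.snd' (FP.fst' FP.id')) (FP.node' (FP.node' FP.leaf' (FP.fst' (FP.snd' FP.id')))
    (FP.ite' (FP.fst' (FP.fst' FP.id')) (FP.snd' (FP.snd' FP.id'))
      (FP.add' (FP.snd' (FP.snd' FP.id')) (FP.fst' (FP.snd' FP.id')))))

theorem mul' {X Y : Tr → Tr} (hX : FP X) (hY : FP Y) : FP (fun v => mul (X v) (Y v)) :=
  FP.snd' (FP.snd' (FP.iterate_poly mstep' hX (FP.node' hX (FP.node' hY FP.leaf')) _ mstep_size))

/-- one step of a sum over a list, on states `node l (node ctx acc)` -/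
def fs (G : Tr → Tr) (st : Tr) : Tr :=
  node (snd (fst st)) (node (fst (snd st)) (add (snd (snd st)) (G (node (fst (fst st)) (fst (snd st))))))

/-- the sum of `G (node a ctx)` over the elements `a` of a list -/
def sumL (G : Tr → Tr) (l ctx : Tr) : Tr := snd (snd ((fs G)^[len l] (node l (node ctx leaf))))

/-- its value -/
def sm (G : Tr → Tr) (ctx : Tr) : Tr → ℕ
  | leaf => 0
  | node a l => vl (G (node a ctx)) + sm G ctx l

theorem fs_it (G : Tr → Tr) (ctx l : Tr) : ∀ acc : Tr, ∃ acc' : Tr,
    (fs G)^[len l] (node l (node ctx acc)) = node leaf (node ctx acc') ∧ vl acc' = vl acc + sm G ctx l := by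
  induction l with
  | leaf => exact fun acc => ⟨acc, rfl, by simp [sm]⟩
  | node a l _ ih =>
    intro acc
    obtain ⟨acc', h1, h2⟩ := ih (add acc (G (node a ctx)))
    refine ⟨acc', ?_, ?_⟩
    · rw [len, Function.iterate_succ_apply]
      exact h1
    · rw [h2, vl_add, sm]
      ring

theorem vl_sumL (G : Tr → Tr) (l ctx : Tr) : vl (sumL G l ctx) = sm G ctx l := by
  obtain ⟨acc', h1, h2⟩ := fs_it G ctx l leaf
  unfold sumL
  rw [h1]
  simp only [snd]
  rw [h2]
  simp [vl]

theorem sumL' {G X Y : Tr → Tr} (hG : FP G) (hX : FP X) (hY : FP Y) : FP (fun v => sumL G (X v) (Y v)) := by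
  obtain ⟨p, hp⟩ := hG.size_bound
  have hfs : FP (fs G) :=
    FP.node' (FP.snd' (FP.fst' FP.id')) (FP.node' (FP.fst' (FP.snd' FP.id'))
      (FP.add' (FP.snd' (FP.snd' FP.id'))
        (FP.comp' hG (FP.node' (FP.fst' (FP.fst' FP.id')) (FP.fst' (FP.snd' FP.id'))))))
  refine FP.snd' (FP.snd' (FP.iterate_poly hfs hX (FP.node' hX (FP.node' hY FP.leaf'))
    (20 * (Polynomial.X + 1) + 8 * Polynomial.X * (p.comp (2 * Polynomial.X + 1) + 1)) fun st i => ?_))
  have h1 : ∀ i, size (fst ((fs G)^[i] st)) ≤ size st := by
    intro i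
    induction i with
    | zero => simpa using size_fst_le st
    | succ i ih =>
      rw [Function.iterate_succ_apply']
      simp only [fs, fst]
      exact (size_snd_le _).trans ih
  have h2 : ∀ i, size (fst (snd ((fs G)^[i] st))) ≤ size st := by
    intro i
    induction i with
    | zero =>
      have e1 := size_snd_le st
      have e2 := size_fst_le (snd st)
      simpa using e2.trans e1
    | succ i ih =>
      rw [Function.iterate_succ_apply']
      simp only [fs, fst, snd]
      exact ih
  have h := acc_bound (F := fs G) (s := fun n _ => p.eval (2 * n + 1)) (fun n m i j h1 _ => by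
      exact poly_mono p (by omega)) st h1 (fun i => (h2 i).trans (by omega)) (by
    intro i
    rw [Function.iterate_succ_apply']
    right
    refine ⟨_, ?_, rfl⟩
    have e1 := len_le_size (G (node (fst (fst ((fs G)^[i] st))) (fst (snd ((fs G)^[i] st)))))
    have e2 := hp (node (fst (fst ((fs G)^[i] st))) (fst (snd ((fs G)^[i] st))))
    have e3 : size (node (fst (fst ((fs G)^[i] st))) (fst (snd ((fs G)^[i] st)))) ≤ 2 * size st + 1 := by
      have e4 := h1 i
      have e5 := h2 i
      have e6 := size_fst_le (fst ((fs G)^[i] st))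
      simp only [size]
      omega
    have e4 := poly_mono p e3
    omega) i
  refine h.trans ?_
  simp only [Polynomial.eval_add, Polynomial.eval_mul, Polynomial.eval_X, Polynomial.eval_one,
    Polynomial.eval_ofNat, Polynomial.eval_comp]
  have e0 : p.eval (2 * size st + 1) ≤ p.eval (2 * (size st + i) + 1) := poly_mono p (by omega)
  have e1 : 8 * i * (p.eval (2 * size st + 1) + 1) ≤ 8 * (size st + i) * (p.eval (2 * (size st + i) + 1) + 1) :=
    Nat.mul_le_mul (by omega) (by omega)
  omega

end Pool.Agent.H84.PP
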