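import Pool.Agent.H84.PP.Thr
import Pool.Agent.H84.PP.Mul
import Pool.Agent.H92.SR.Prg

/-!
MP_3b0ce5_lc, nonuniform polynomial time for polynomially many square classes.
-/

set_option autoImplicit false

namespace Pool.Agent.H84.PP

open Pool.Agent.H92.SR Pool.Agent.H92.SR.Tr

/-- the contribution of an entry of the table, on `node entry d` -/
def gf (w : Tr) : Tr :=
  if fst (sqf (mul (snd w) (fst (fst w))) leaf) = leaf then
    mul (sqr (mul (snd w) (fst (fst w))) leaf) (snd (fst w))
  else leaf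

/-- the contribution of a radicand, on `node d table` -/
def tf (w : Tr) : Tr := sumL gf (snd w) (fst w)

/-- the answer, on `node advice instance` -/
def ans (v : Tr) : Tr :=
  if ltb (mul (snd (snd v)) (fst (fst v))) (sumL tf (fst (snd v)) (snd (fst v))) = true then bit false else bit true

theorem gf' : FP gf := by
  have h1 : FP fun w => mul (snd w) (fst (fst w)) := mul' (FP.snd' FP.id') (FP.fst' (FP.fst' FP.id'))
  exact FP.ite' (FP.fst' (FP.sqf' h1 FP.leaf')) (mul' (FP.sqr' h1 FP.leaf') (FP.snd' (FP.fst' FP.id'))) FP.leaf'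

theorem tf' : FP tf := sumL' gf' (FP.snd' FP.id') (FP.fst' FP.id')

theorem ans' : FP ans := by
  have h1 : FP fun v => mul (snd (snd v)) (fst (fst v)) :=
    mul' (FP.snd' (FP.snd' FP.id')) (FP.fst' (FP.fst' FP.id'))
  have h2 : FP fun v => sumL tf (fst (snd v)) (snd (fst v)) :=
    sumL' tf' (FP.fst' (FP.snd' FP.id')) (FP.snd' (FP.fst' FP.id'))
  exact FP.iteB (p := fun v => ltb (mul (snd (snd v)) (fst (fst v))) (sumL tf (fst (snd v)) (snd (fst v))))
    (FP.sc2 gs g3 false (FP.cat' h1 h2) h1 h2) (FP.const' _) (FP.const' _)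

/-- the table -/
def encT (W : ℕ → ℕ) : List ℕ → Tr
  | [] => leaf
  | m :: l => node (node (encN m) (encN (W m))) (encT W l)

theorem sqf_leaf (x : Tr) : fst (sqf x leaf) = leaf ↔ IsSquare (vl x) := by
  have h := sqf_spec x leaf
  rw [show len leaf = 0 from rfl, pow_zero, one_mul] at h
  have h2 : fst (sqf x leaf) = leaf ↔ vl (sqf x leaf) = 0 := by
    unfold sqf
    simp only [FP.fst_nd, vl]
    generalize (sc gs g3 (len (fst (snd (sqs x leaf)))) false leaf (fst (snd (sqs x leaf)))).2 = b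
    cases b <;> simp [bit, bt, nb]
  rw [h2, h]
  constructor
  · intro h3
    by_cases h4 : Nat.sqrt (vl x) ^ 2 = vl x
    · exact ⟨Nat.sqrt (vl x), by rw [← h4]; ring_nf; rw [Nat.sqrt_eq']⟩
    · rw [if_neg h4] at h3
      omega
  · rintro ⟨r, hr⟩
    rw [if_pos]
    rw [hr, Nat.sqrt_eq]
    ring

theorem gf_vl (m w d : ℕ) [Decidable (IsSquare (d * m))] : vl (gf (node (node (encN m) (encN w)) (encN d))) =
    if IsSquare (d * m) then Nat.sqrt (d * m) * w else 0 := by
  have e : gf (node (node (encN m) (encN w)) (encN d)) =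
      if fst (sqf (mul (encN d) (encN m)) leaf) = leaf then mul (sqr (mul (encN d) (encN m)) leaf) (encN w)
      else leaf := rfl
  rw [e]
  have h1 : vl (mul (encN d) (encN m)) = d * m := by rw [vl_mul, vl_encN, vl_encN]
  by_cases h : IsSquare (d * m)
  · rw [if_pos h, if_pos ((sqf_leaf _).2 (by rw [h1]; exact h)), vl_mul, vl_encN, (sqr_spec _ _).1, h1]
    rw [show len leaf = 0 from rfl, pow_zero, one_mul]
  · rw [if_neg h, if_neg (fun h2 => h (by rw [← h1]; exact (sqf_leaf _).1 h2))]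
    rfl

open Classical in
theorem sm_gf (W : ℕ → ℕ) (d : ℕ) (l : List ℕ) : sm gf (encN d) (encT W l) =
    (l.map fun m => if IsSquare (d * m) then Nat.sqrt (d * m) * W m else 0).sum := by
  induction l with
  | nil => rfl
  | cons m l ih =>
    rw [encT, sm, gf_vl, ih, List.map_cons, List.sum_cons]

open Classical in
theorem sm_tf (W : ℕ → ℕ) (l L : List ℕ) : sm tf (encT W l) (encL L) =
    (L.map fun d => (l.map fun m => if IsSquare (d * m) then Nat.sqrt (d * m) * W m else 0).sum).sum := by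
  induction L with
  | nil => rfl
  | cons d L ih =>
    rw [encL, sm, ih, List.map_cons, List.sum_cons]
    congr 1
    unfold tf
    simp only [FP.fst_nd, FP.snd_nd]
    rw [vl_sumL, sm_gf]

open Classical in
theorem ans_spec (W : ℕ → ℕ) (w0 : ℕ) (l L : List ℕ) (k : ℕ) :
    ans (node (node (encN w0) (encT W l)) (encI L k)) = bit (decide
      ((L.map fun d => (l.map fun m => if IsSquare (d * m) then Nat.sqrt (d * m) * W m else 0).sum).sum ≤
        k * w0)) := by
  have e : ans (node (node (encN w0) (encT W l)) (encI L k)) =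
      if ltb (mul (encN k) (encN w0)) (sumL tf (encL L) (encT W l)) = true then bit false else bit true := rfl
  rw [e]
  by_cases h : (L.map fun d => (l.map fun m => if IsSquare (d * m) then Nat.sqrt (d * m) * W m else 0).sum).sum ≤
        k * w0
  · rw [if_neg, decide_eq_true h]
    rw [ltb_iff, vl_mul, vl_encN, vl_encN, vl_sumL, sm_tf]
    exact not_lt.2 h
  · rw [if_pos, decide_eq_false h]
    rw [ltb_iff, vl_mul, vl_encN, vl_encN, vl_sumL, sm_tf]
    exact not_le.1 h

/-! ### square classes -/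

theorem eq_of_sq {a b : ℕ} (ha : Squarefree a) (hb : Squarefree b) (h : IsSquare (a * b)) : a = b := by
  have ha0 := ha.ne_zero
  have hb0 := hb.ne_zero
  obtain ⟨e, he⟩ := h
  have he0 : e ≠ 0 := by
    rintro rfl
    rw [mul_zero] at he
    rcases mul_eq_zero.1 he with h | h
    · exact ha0 h
    · exact hb0 h
  apply Nat.eq_of_factorization_eq ha0 hb0
  intro p
  have h1 := congrArg (fun n => n.factorization p) he
  simp only [Nat.factorization_mul ha0 hb0, Nat.factorization_mul he0 he0, Finsupp.add_apply] at h1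
  have h2 := ha.natFactorization_le_one p
  have h3 := hb.natFactorization_le_one p
  omega

theorem sq_cancel {a b c : ℕ} (hb : b ≠ 0) (h : IsSquare (a * (b ^ 2 * c))) : IsSquare (a * c) := by
  obtain ⟨e, he⟩ := h
  have h1 : b ^ 2 ∣ e ^ 2 := ⟨a * c, by rw [pow_two e, ← he]; ring⟩
  obtain ⟨f, rfl⟩ := (Nat.pow_dvd_pow_iff (by norm_num : 2 ≠ 0)).1 h1
  refine ⟨f, ?_⟩
  have h2 : b ^ 2 * (a * c) = b ^ 2 * (f * f) := by
    calc b ^ 2 * (a * c) = a * (b ^ 2 * c) := by ring
      _ = b * f * (b * f) := he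
      _ = b ^ 2 * (f * f) := by ring
  exact Nat.eq_of_mul_eq_mul_left (by positivity) h2

theorem class_eq {d m : ℕ} (hd : d ≠ 0) (hm : Squarefree m) (h : IsSquare (d * m)) :
    ∃ x, x ≠ 0 ∧ d = x ^ 2 * m := by
  obtain ⟨c, b, hbc, hc⟩ := Nat.sq_mul_squarefree d
  have hb : b ≠ 0 := by
    rintro rfl
    apply hd
    rw [← hbc]
    simp
  have h1 : IsSquare (m * c) := by
    apply sq_cancel hb
    rw [hbc, mul_comm]
    exact h
  have h2 := eq_of_sq hm hc h1
  exact ⟨b, hb, by rw [h2]; exact hbc.symm⟩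

theorem class_unique {d m m' : ℕ} (hd : d ≠ 0) (hm : Squarefree m) (hm' : Squarefree m') (h : IsSquare (d * m))
    (h' : IsSquare (d * m')) : m = m' := by
  obtain ⟨x, hx, rfl⟩ := class_eq hd hm h
  apply eq_of_sq hm hm'
  rw [mul_comm]
  apply sq_cancel hx
  rw [mul_comm]
  exact h'

theorem sqrt_class {d m : ℕ} (hm : m ≠ 0) (h : IsSquare (d * m)) :
    √(d : ℝ) = (Nat.sqrt (d * m) : ℝ) * (√(m : ℝ))⁻¹ := by
  obtain ⟨r, hr⟩ := h
  rw [hr, Nat.sqrt_eq]
  have h1 : (r : ℝ) = √(d : ℝ) * √(m : ℝ) := by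
    rw [← Real.sqrt_mul (Nat.cast_nonneg d)]
    have : (d : ℝ) * m = (r : ℝ) * r := by exact_mod_cast hr
    rw [this, Real.sqrt_mul_self (Nat.cast_nonneg r)]
  have h2 : √(m : ℝ) ≠ 0 := Real.sqrt_ne_zero'.2 (by exact_mod_cast Nat.pos_of_ne_zero hm)
  rw [h1, mul_assoc, mul_inv_cancel₀ h2, mul_one]

open Classical in
theorem sqrt_sum {M : Finset ℕ} (hM : ∀ m ∈ M, Squarefree m) {d : ℕ} (h : ∃ m ∈ M, IsSquare (d * m)) :
    √(d : ℝ) = ∑ m ∈ M, ((if IsSquare (d * m) then Nat.sqrt (d * m) else 0 : ℕ) : ℝ) * (√(m : ℝ))⁻¹ := by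
  obtain ⟨m, hm, hs⟩ := h
  rcases Nat.eq_zero_or_pos d with hd | hd
  · subst hd
    simp
  · rw [Finset.sum_eq_single_of_mem m hm]
    · rw [if_pos hs]
      exact sqrt_class (hM m hm).ne_zero hs
    · intro m' hm' hne
      rw [if_neg]
      · simp
      · intro h'
        exact hne (class_unique (by omega) (hM m' hm') (hM m hm) h' hs)

/-- the squarefree part -/
noncomputable def core (n : ℕ) : ℕ := (Nat.sq_mul_squarefree n).choose

theorem core_spec (n : ℕ) : ∃ b, b ^ 2 * core n = n ∧ Squarefree (core n) :=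
  (Nat.sq_mul_squarefree n).choose_spec

/-- the classes which occur -/
noncomputable def cls (s : ℕ) (R : Finset ℕ) : Finset ℕ :=
  ((R.filter (fun a => a ≠ 0)).image core).filter (fun m => m < 2 ^ s)

theorem cls_card (s : ℕ) (R : Finset ℕ) : (cls s R).card ≤ R.card :=
  (Finset.card_filter_le _ _).trans (Finset.card_image_le.trans (Finset.card_filter_le _ _))

theorem cls_sqf {s : ℕ} {R : Finset ℕ} : ∀ m ∈ cls s R, Squarefree m := by
  intro m hm
  unfold cls at hm
  rw [Finset.mem_filter, Finset.mem_image] at hm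
  obtain ⟨⟨a, -, rfl⟩, -⟩ := hm
  obtain ⟨b, -, h⟩ := core_spec a
  exact h

theorem cls_lt {s : ℕ} {R : Finset ℕ} : ∀ m ∈ cls s R, m < 2 ^ s := by
  intro m hm
  exact (Finset.mem_filter.1 hm).2

theorem cls_mem {s : ℕ} {R : Finset ℕ} {d : ℕ} (hd0 : d ≠ 0) (hd : d < 2 ^ s)
    (h : ∃ a ∈ R, a ≠ 0 ∧ IsSquare (d * a)) : ∃ m ∈ cls s R, IsSquare (d * m) := by
  obtain ⟨a, ha, ha0, hsq⟩ := h
  obtain ⟨b, hb, hc⟩ := core_spec a
  have hb0 : b ≠ 0 := by
    rintro rfl
    apply ha0
    rw [← hb]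
    simp
  have h1 : IsSquare (d * core a) := by
    apply sq_cancel hb0
    rw [hb]
    exact hsq
  obtain ⟨x, hx, hdx⟩ := class_eq hd0 hc h1
  refine ⟨core a, ?_, h1⟩
  unfold cls
  rw [Finset.mem_filter, Finset.mem_image]
  refine ⟨⟨a, Finset.mem_filter.2 ⟨ha, ha0⟩, rfl⟩, lt_of_le_of_lt ?_ hd⟩
  calc core a = 1 * core a := (one_mul _).symm
    _ ≤ x ^ 2 * core a := Nat.mul_le_mul_right _ (Nat.one_le_iff_ne_zero.2 (by positivity))
    _ = d := hdx.symm

/-- natural weights of polynomial length -/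
theorem weights (s : ℕ) (M : Finset ℕ) (hM : ∀ m ∈ M, Squarefree m) : ∃ (w0 : ℕ) (W : ℕ → ℕ),
    Nat.size w0 ≤ (M.card + 1) ^ 2 + 2 * s * (M.card + 1) + 1 ∧
    (∀ m ∈ M, Nat.size (W m) ≤ (M.card + 1) ^ 2 + 2 * s * (M.card + 1) + 1) ∧
    ∀ (c : ℕ → ℕ) (k : ℕ), k ≤ 2 ^ (2 * s) → (∀ m ∈ M, c m ≤ 2 ^ (2 * s)) →
      (∑ m ∈ M, (c m : ℝ) * (√(m : ℝ))⁻¹ ≤ k ↔ ∑ m ∈ M, c m * W m ≤ k * w0) := by
  classical
  let v : Option M → ℝ := fun i => i.elim 1 fun m => (√((m : ℕ) : ℝ))⁻¹
  have hv : ∀ i, 0 < v i := by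
    intro i
    cases i with
    | none => exact one_pos
    | some m =>
      have h1 : 0 < (m : ℕ) := Nat.pos_of_ne_zero (hM m m.2).ne_zero
      exact inv_pos.2 (Real.sqrt_pos.2 (by exact_mod_cast h1))
  obtain ⟨W, hW1, hW2⟩ := thr v hv (C := 2 ^ (2 * s)) Nat.one_le_two_pow
  have hcard : Fintype.card (Option M) = M.card + 1 := by simp
  rw [hcard] at hW1
  have hpos : ∀ i, 0 ≤ W i := by
    intro i
    have h1 := hW2 (Pi.single i 1) (by
      intro j
      by_cases hj : j = i
      · subst hj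
        rw [Pi.single_eq_same, abs_one]
        exact_mod_cast Nat.one_le_two_pow
      · rw [Pi.single_eq_of_ne hj, abs_zero]
        positivity)
    have h2 : ∑ j, ((Pi.single i 1 : Option M → ℤ) j : ℝ) * v j = v i := by
      rw [Finset.sum_eq_single i]
      · simp
      · intro j _ hj
        simp [Pi.single_eq_of_ne hj]
      · simp
    have h3 : ∑ j, (Pi.single i 1 : Option M → ℤ) j * W j = W i := by
      rw [Finset.sum_eq_single i]
      · simp
      · intro j _ hj
        simp [Pi.single_eq_of_ne hj]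
      · simp
    rw [h2, h3] at h1
    exact h1.1 (hv i).le
  have hsize : ∀ i, Nat.size (W i).toNat ≤ (M.card + 1) ^ 2 + 2 * s * (M.card + 1) + 1 := by
    intro i
    apply Nat.size_le.2
    have h1 := hW1 i
    rw [abs_of_nonneg (hpos i)] at h1
    have h2 : (W i).toNat ≤ (M.card + 1).factorial * (2 ^ (2 * s)) ^ (M.card + 1) := by
      zify
      rw [Int.toNat_of_nonneg (hpos i)]
      exact_mod_cast h1
    have h3 : (M.card + 1).factorial ≤ 2 ^ ((M.card + 1) ^ 2) := by
      calc (M.card + 1).factorial ≤ (M.card + 1) ^ (M.card + 1) := Nat.factorial_le_pow _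
        _ ≤ (2 ^ (M.card + 1)) ^ (M.card + 1) := Nat.pow_le_pow_left Nat.lt_two_pow_self.le _
        _ = 2 ^ ((M.card + 1) ^ 2) := by rw [← pow_mul]; ring_nf
    calc (W i).toNat ≤ (M.card + 1).factorial * (2 ^ (2 * s)) ^ (M.card + 1) := h2
      _ ≤ 2 ^ ((M.card + 1) ^ 2) * (2 ^ (2 * s)) ^ (M.card + 1) := Nat.mul_le_mul_right _ h3
      _ = 2 ^ ((M.card + 1) ^ 2 + 2 * s * (M.card + 1)) := by rw [← pow_mul, ← pow_add]
      _ < 2 ^ ((M.card + 1) ^ 2 + 2 * s * (M.card + 1) + 1) := Nat.pow_lt_pow_right (by norm_num) (by omega)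
  refine ⟨(W none).toNat, fun m => if h : m ∈ M then (W (some ⟨m, h⟩)).toNat else 0, hsize _, ?_, ?_⟩
  · intro m hm
    beta_reduce
    rw [dif_pos hm]
    exact hsize _
  · intro c k hk hc
    have h1 := hW2 (fun i => i.elim (k : ℤ) fun m => -(c m : ℤ)) (by
      intro i
      cases i with
      | none =>
        simp only [Option.elim_none, Nat.abs_cast]
        exact_mod_cast hk
      | some m =>
        simp only [Option.elim_some, abs_neg, Nat.abs_cast]
        exact_mod_cast hc m m.2)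
    rw [Fintype.sum_option, Fintype.sum_option] at h1
    simp only [Option.elim_none, Option.elim_some, v] at h1
    have e1 : ∑ x : M, (((-(c x : ℤ) : ℤ) : ℝ)) * (√((x : ℕ) : ℝ))⁻¹ = - ∑ m ∈ M, (c m : ℝ) * (√(m : ℝ))⁻¹ := by
      rw [← Finset.sum_coe_sort M (fun m => (c m : ℝ) * (√(m : ℝ))⁻¹), ← Finset.sum_neg_distrib]
      refine Finset.sum_congr rfl fun x _ => ?_
      push_cast
      ring
    have e2 : ∑ x : M, -(c x : ℤ) * W (some x) =
        - ((∑ m ∈ M, c m * (if h : m ∈ M then (W (some ⟨m, h⟩)).toNat else 0) : ℕ) : ℤ) := by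
      rw [← Finset.sum_coe_sort M (fun m => c m * (if h : m ∈ M then (W (some ⟨m, h⟩)).toNat else 0))]
      push_cast
      rw [← Finset.sum_neg_distrib]
      refine Finset.sum_congr rfl fun x _ => ?_
      rw [dif_pos x.2, Int.toNat_of_nonneg (hpos _)]
      ring
    rw [e1, e2] at h1
    have e3 : (k : ℤ) * W none = ((k * (W none).toNat : ℕ) : ℤ) := by
      push_cast
      rw [Int.toNat_of_nonneg (hpos _)]
    rw [e3] at h1
    have h2 : (∑ m ∈ M, (c m : ℝ) * (√(m : ℝ))⁻¹ ≤ k) ↔
        0 ≤ ((k : ℤ) : ℝ) * 1 + - ∑ m ∈ M, (c m : ℝ) * (√(m : ℝ))⁻¹ := by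
      push_cast
      constructor <;> intro h <;> linarith
    rw [h2, h1]
    beta_reduce
    constructor <;> intro h <;> omega

/-- the sum over the table, in the order of the radicands -/
theorem swap (W : ℕ → ℕ) (f : ℕ → ℕ → ℕ) (M : Finset ℕ) (L : List ℕ) :
    (L.map fun d => (M.toList.map fun m => f d m * W m).sum).sum = ∑ m ∈ M, (L.map fun d => f d m).sum * W m := by
  induction L with
  | nil => simp
  | cons d L ih =>
    rw [List.map_cons, List.sum_cons, ih]
    simp only [List.map_cons, List.sum_cons, add_mul, Finset.sum_add_distrib]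
    rw [Finset.sum_map_toList]

theorem size_encT (W : ℕ → ℕ) (B : ℕ) (l : List ℕ) (h : ∀ m ∈ l, Nat.size m ≤ B ∧ Nat.size (W m) ≤ B) :
    size (encT W l) ≤ l.length * (8 * B + 4) + 1 := by
  induction l with
  | nil => simp [encT, size]
  | cons m l ih =>
    have h1 := ih fun m' hm' => h m' (List.mem_cons_of_mem _ hm')
    have h2 := h m List.mem_cons_self
    have h3 := size_encN m
    have h4 := size_encN (W m)
    simp only [encT, size, List.length_cons]
    have e : (l.length + 1) * (8 * B + 4) = l.length * (8 * B + 4) + (8 * B + 4) := by ring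
    omega

open Classical in
theorem main : ∃ c : Prog, ∀ P : Polynomial ℕ, ∃ q : Polynomial ℕ, ∀ (s : ℕ) (R : Finset ℕ),
    R.card ≤ P.eval s → ∃ α : Tr, size α ≤ q.eval s ∧ ∀ (L : List ℕ) (k : ℕ), bsz L k ≤ s →
      (∀ d ∈ L, ∃ a ∈ R, a ≠ 0 ∧ IsSquare (d * a)) →
        ∃ t ≤ q.eval s, Eval c (node α (encI L k)) (bit (decide ((L.map fun a : ℕ => √(a : ℝ)).sum ≤ k))) t := by
  obtain ⟨c, q, hq⟩ := ans'
  refine ⟨c, fun P => ?_⟩
  set B : Polynomial ℕ := (P + 1) ^ 2 + 2 * Polynomial.X * (P + 1) + 1 + Polynomial.X with hB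
  set A : Polynomial ℕ := P * (8 * B + 4) + 4 * B + 4 with hA
  refine ⟨q.comp (A + 8 * Polynomial.X + 9) + A, fun s R hR => ?_⟩
  set M := cls s R with hM
  have hMc : M.card ≤ P.eval s := (cls_card s R).trans hR
  obtain ⟨w0, W, hw0, hW, hspec⟩ := weights s M (fun m hm => cls_sqf m hm)
  have hBB : (M.card + 1) ^ 2 + 2 * s * (M.card + 1) + 1 + s ≤ B.eval s := by
    rw [hB]
    simp only [Polynomial.eval_add, Polynomial.eval_mul, Polynomial.eval_pow, Polynomial.eval_X,
      Polynomial.eval_one, Polynomial.eval_ofNat]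
    have h1 : (M.card + 1) ^ 2 ≤ (P.eval s + 1) ^ 2 := Nat.pow_le_pow_left (by omega) 2
    have h2 : 2 * s * (M.card + 1) ≤ 2 * s * (P.eval s + 1) := Nat.mul_le_mul_left _ (by omega)
    omega
  have hα : size (node (encN w0) (encT W M.toList)) ≤ A.eval s := by
    have h1 := size_encT W (B.eval s) M.toList (fun m hm => by
      rw [Finset.mem_toList] at hm
      refine ⟨?_, (hW m hm).trans (by omega)⟩
      have := Nat.size_le.2 (cls_lt m hm)
      omega)
    have h2 := size_encN w0
    rw [Finset.length_toList] at h1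
    rw [hA]
    simp only [size, Polynomial.eval_add, Polynomial.eval_mul, Polynomial.eval_ofNat]
    have h3 : M.card * (8 * B.eval s + 4) ≤ P.eval s * (8 * B.eval s + 4) := Nat.mul_le_mul_right _ hMc
    omega
  refine ⟨node (encN w0) (encT W M.toList), ?_, fun L k hs hL => ?_⟩
  · rw [Polynomial.eval_add]
    omega
  · have hlt : ∀ d ∈ L, d < 2 ^ s := by
      intro d hd
      have h1 : Nat.size d ≤ (L.map Nat.size).sum := List.single_le_sum (by simp) _ (List.mem_map_of_mem hd)
      apply Nat.size_le.1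
      unfold bsz at hs
      omega
    have hlen : L.length ≤ s := by
      unfold bsz at hs
      omega
    have hk : k ≤ 2 ^ (2 * s) := by
      have h1 : k < 2 ^ s := Nat.size_le.1 (by unfold bsz at hs; omega)
      exact h1.le.trans (Nat.pow_le_pow_right (by norm_num) (by omega))
    set f : ℕ → ℕ → ℕ := fun d m => if IsSquare (d * m) then Nat.sqrt (d * m) else 0 with hf
    have hc : ∀ m ∈ M, (L.map fun d => f d m).sum ≤ 2 ^ (2 * s) := by
      intro m hm
      have h1 : ∀ x ∈ L.map (fun d => f d m), x ≤ 2 ^ s := by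
        intro x hx
        rw [List.mem_map] at hx
        obtain ⟨d, hd, rfl⟩ := hx
        rw [hf]
        beta_reduce
        split_ifs
        · have h2 : d * m ≤ 2 ^ s * 2 ^ s := Nat.mul_le_mul (hlt d hd).le (cls_lt m hm).le
          calc Nat.sqrt (d * m) ≤ Nat.sqrt (2 ^ s * 2 ^ s) := Nat.sqrt_le_sqrt h2
            _ = 2 ^ s := Nat.sqrt_eq _
        · positivity
      have h2 := List.sum_le_card_nsmul _ _ h1
      rw [List.length_map, smul_eq_mul] at h2
      calc (L.map fun d => f d m).sum ≤ L.length * 2 ^ s := h2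
        _ ≤ 2 ^ s * 2 ^ s := Nat.mul_le_mul_right _ (hlen.trans Nat.lt_two_pow_self.le)
        _ = 2 ^ (2 * s) := by rw [← pow_add]; ring_nf
    have hreal : (L.map fun a : ℕ => √(a : ℝ)).sum =
        ∑ m ∈ M, (((L.map fun d => f d m).sum : ℕ) : ℝ) * (√(m : ℝ))⁻¹ := by
      have key : ∀ L' : List ℕ, (∀ d ∈ L', d ∈ L) → (L'.map fun a : ℕ => √(a : ℝ)).sum =
          ∑ m ∈ M, (((L'.map fun d => f d m).sum : ℕ) : ℝ) * (√(m : ℝ))⁻¹ := by
        intro L'
        induction L' with
        | nil => simp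
        | cons d L' ih =>
          intro hL'
          rw [List.map_cons, List.sum_cons, ih fun d' hd' => hL' d' (List.mem_cons_of_mem _ hd')]
          simp only [List.map_cons, List.sum_cons, Nat.cast_add, add_mul, Finset.sum_add_distrib]
          congr 1
          have hd := hL' d List.mem_cons_self
          rcases Nat.eq_zero_or_pos d with h0 | h0
          · subst h0
            simp [hf]
          · exact sqrt_sum (fun m hm => cls_sqf m hm) (cls_mem (by omega) (hlt d hd) (hL d hd))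
      exact key L fun d hd => hd
    have hiff := hspec (fun m => (L.map fun d => f d m).sum) k hk hc
    have hans := ans_spec W w0 M.toList L k
    have e : (L.map fun d => (M.toList.map fun m =>
        if IsSquare (d * m) then Nat.sqrt (d * m) * W m else 0).sum).sum =
        ∑ m ∈ M, (L.map fun d => f d m).sum * W m := by
      rw [← swap]
      congr 1
      refine List.map_congr_left fun d _ => ?_
      congr 1
      refine List.map_congr_left fun m _ => ?_
      rw [hf]
      beta_reduce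
      split_ifs <;> simp
    rw [e] at hans
    have hd : decide (∑ m ∈ M, (L.map fun d => f d m).sum * W m ≤ k * w0) =
        decide ((L.map fun a : ℕ => √(a : ℝ)).sum ≤ k) := by
      apply decide_eq_decide.2
      rw [hreal]
      exact hiff.symm
    obtain ⟨t, ht, he⟩ := hq (node (node (encN w0) (encT W M.toList)) (encI L k))
    rw [hans, hd] at he
    refine ⟨t, ht.trans ?_, he⟩
    rw [Polynomial.eval_add, Polynomial.eval_comp]
    have h1 : size (node (node (encN w0) (encT W M.toList)) (encI L k)) ≤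
        (A + 8 * Polynomial.X + 9).eval s := by
      have h2 := size_encI L k
      have h3 : 8 * bsz L k ≤ 8 * s := by omega
      simp only [Polynomial.eval_add, Polynomial.eval_mul, Polynomial.eval_X, Polynomial.eval_ofNat]
      rw [size]
      omega
    have h2 := poly_mono q h1
    omega

end Pool.Agent.H84.PP
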