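import Pool.Agent.H84.PP.Top

/-!
MP_3b0ce5_lc: radicands in the classes `a * ∏ F`, `a` in the table and `F` a subset of a small set `E`
which depends on the instance; the program finds generators.
-/

set_option autoImplicit false

namespace Pool.Agent.H84.PP

open Pool.Agent.H92.SR Pool.Agent.H92.SR.Tr
open scoped Pointwise

/-- `d` is in a class of `R` times a product of some of the `j` generators -/
def Gj (R : Finset ℕ) : ℕ → Tr → ℕ → Prop
  | 0, _, d => Cl R d
  | j + 1, es, d => Gj R j (snd es) d ∨ Gj R j (snd es) (d * vl (fst es))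

theorem Gj_mono {R R' : Finset ℕ} (h : R ⊆ R') (j : ℕ) : ∀ {es : Tr} {d : ℕ}, Gj R j es d → Gj R' j es d := by
  induction j with
  | zero =>
    intro es d hd
    obtain ⟨a, ha, ha0, hs⟩ := hd
    exact ⟨a, h ha, ha0, hs⟩
  | succ j ih =>
    intro es d hd
    rcases hd with hd | hd
    · exact Or.inl (ih hd)
    · exact Or.inr (ih hd)

theorem Gj_cancel {R : Finset ℕ} {b : ℕ} (hb : b ≠ 0) (j : ℕ) : ∀ {es : Tr} {d : ℕ},
    Gj R j es (d * (b * b)) → Gj R j es d := by
  induction j with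
  | zero =>
    intro es d hd
    obtain ⟨a, ha, ha0, hs⟩ := hd
    refine ⟨a, ha, ha0, ?_⟩
    have h1 : IsSquare (d * a * (b ^ 2 * 1)) := by
      rwa [show d * (b * b) * a = d * a * (b ^ 2 * 1) by ring] at hs
    have h2 := sq_cancel hb h1
    rwa [mul_one] at h2
  | succ j ih =>
    intro es d hd
    rcases hd with hd | hd
    · exact Or.inl (ih hd)
    · refine Or.inr (ih ?_)
      rwa [show d * (b * b) * vl (fst es) = d * vl (fst es) * (b * b) by ring] at hd

theorem Gj_mul {R R' : Finset ℕ} (j : ℕ) : ∀ {es : Tr} {d d' : ℕ}, pos j es → Gj R j es d → Gj R' j es d' →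
    Gj (R * R') j es (d * d') := by
  induction j with
  | zero =>
    intro es d d' _ h h'
    have := Cl_mul h h'
    rwa [mul_comm d' d] at this
  | succ j ih =>
    intro es d d' hp h h'
    rcases h with h | h <;> rcases h' with h' | h'
    · exact Or.inl (ih hp.2 h h')
    · refine Or.inr ?_
      have := ih hp.2 h h'
      rwa [show d * (d' * vl (fst es)) = d * d' * vl (fst es) by ring] at this
    · refine Or.inr ?_
      have := ih hp.2 h h'
      rwa [show d * vl (fst es) * d' = d * d' * vl (fst es) by ring] at this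
    · refine Or.inl (Gj_cancel hp.1 j (b := vl (fst es)) ?_)
      have := ih hp.2 h h'
      rwa [show d * vl (fst es) * (d' * vl (fst es)) = d * d' * (vl (fst es) * vl (fst es)) by ring] at this

theorem Gj_zero {R : Finset ℕ} (h1 : 1 ∈ R) (j : ℕ) : ∀ {es : Tr}, Gj R j es 0 := by
  induction j with
  | zero => exact fun {es} => ⟨1, h1, one_ne_zero, ⟨0, by simp⟩⟩
  | succ j ih => exact fun {es} => Or.inl ih

/-- the step: a new generator replaces an element of `E` -/
theorem Gj_step {R Rt E : Finset ℕ} {j : ℕ} {es : Tr} {u : ℕ} (hp : pos j es) (h1 : 1 ∈ R) (hRt : R ⊆ Rt)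
    (hE : ∀ e ∈ E, e ≠ 0) (hu : ∃ F ⊆ E, Gj R j es (u * ∏ e ∈ F, e)) (hun : ¬ Gj Rt j es u) :
    ∃ e0 ∈ E, ∀ x : Tr, vl x = u → ∀ d, (∃ F ⊆ E, Gj R j es (d * ∏ e ∈ F, e)) →
      ∃ F ⊆ E.erase e0, Gj (R * R) (j + 1) (node x es) (d * ∏ e ∈ F, e) := by
  classical
  obtain ⟨F, hF, hG⟩ := hu
  have hne : F.Nonempty := by
    rw [Finset.nonempty_iff_ne_empty]
    rintro rfl
    rw [Finset.prod_empty, mul_one] at hG
    exact hun (Gj_mono hRt j hG)
  obtain ⟨e0, he0⟩ := hne
  refine ⟨e0, hF he0, fun x hx d hd => ?_⟩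
  obtain ⟨F', hF', hG'⟩ := hd
  have hle : R ⊆ R * R := fun a ha => by simpa using Finset.mul_mem_mul ha h1
  by_cases h : e0 ∈ F'
  · refine ⟨(F' \ F) ∪ (F \ F'), ?_, Or.inr ?_⟩
    · intro e he
      rw [Finset.mem_union, Finset.mem_sdiff, Finset.mem_sdiff] at he
      rw [Finset.mem_erase]
      rcases he with he | he
      · exact ⟨fun h2 => he.2 (h2 ▸ he0), hF' he.1⟩
      · exact ⟨fun h2 => he.2 (h2 ▸ h), hF he.1⟩
    · rw [FP.snd_nd, FP.fst_nd, hx]
      apply Gj_cancel (b := ∏ e ∈ F' ∩ F, e)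
      · exact Finset.prod_ne_zero_iff.2 fun e he => hE e (hF' (Finset.mem_inter.1 he).1)
      have h2 := Gj_mul j hp hG' hG
      have hdis : Disjoint (F' \ F) (F \ F') := by
        rw [Finset.disjoint_left]
        intro e he he'
        exact (Finset.mem_sdiff.1 he).2 (Finset.mem_sdiff.1 he').1
      rw [Finset.prod_union hdis]
      have e1 := Finset.prod_inter_mul_prod_sdiff F' F (fun e : ℕ => e)
      have e2 := Finset.prod_inter_mul_prod_sdiff F F' (fun e : ℕ => e)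
      rw [Finset.inter_comm F F'] at e2
      rw [← e1, ← e2] at h2
      rwa [show d * ((∏ e ∈ F' ∩ F, e) * ∏ e ∈ F' \ F, e) * (u * ((∏ e ∈ F' ∩ F, e) * ∏ e ∈ F \ F', e)) =
        d * ((∏ e ∈ F' \ F, e) * ∏ e ∈ F \ F', e) * u * ((∏ e ∈ F' ∩ F, e) * ∏ e ∈ F' ∩ F, e) by ring] at h2
  · refine ⟨F', ?_, Or.inl ?_⟩
    · intro e he
      rw [Finset.mem_erase]
      exact ⟨fun h2 => h (h2 ▸ he), hF' he⟩
    · rw [FP.snd_nd]
      exact Gj_mono hle j hG'

/-! ### the machine -/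

/-- not `leaf` if `a` is in a class of the list `Rt` times a product of generators -/
def tst : ℕ → Tr → Tr → Tr → Tr
  | 0, _, a, Rt => exL a Rt
  | j + 1, es, a, Rt => if tst j (snd es) a Rt = leaf then tst j (snd es) (mul a (fst es)) Rt else one

theorem tst' (j : ℕ) : ∀ {X Y Z : Tr → Tr}, FP X → FP Y → FP Z → FP (fun v => tst j (X v) (Y v) (Z v)) := by
  induction j with
  | zero => exact fun _ hY hZ => exL' hY hZ
  | succ j ih =>
    intro X Y Z hX hY hZ
    exact FP.ite' (ih (FP.snd' hX) hY hZ) (ih (FP.snd' hX) (mul' hY (FP.fst' hX)) hZ) (FP.const' _)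

/-- the product of the generators -/
def gp : ℕ → Tr → ℕ
  | 0, _ => 1
  | j + 1, es => vl (fst es) * gp j (snd es)

/-- the list of the machine -/
noncomputable def rl (s : ℕ) (Rt : Finset ℕ) : List ℕ := (insert 1 (cls s Rt)).toList

theorem tst_spec {Rt : Finset ℕ} {s : ℕ} (h1 : 1 ∈ Rt) (j : ℕ) : ∀ es a : Tr, pos j es →
    vl a * gp j es < 2 ^ s → (tst j es a (encL (rl s Rt)) ≠ leaf ↔ Gj Rt j es (vl a)) := by
  induction j with
  | zero =>
    intro es a _ hb
    rw [gp, mul_one] at hb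
    rw [tst, Ne, exL_spec]
    push Not
    constructor
    · rintro ⟨m, hm, hs⟩
      rw [rl, Finset.mem_toList, Finset.mem_insert] at hm
      rcases hm with rfl | hm
      · exact ⟨1, h1, one_ne_zero, by rwa [mul_comm]⟩
      · unfold cls at hm
        rw [Finset.mem_filter, Finset.mem_image] at hm
        obtain ⟨⟨a', ha', rfl⟩, -⟩ := hm
        obtain ⟨b, hb, -⟩ := core_spec a'
        refine ⟨a', (Finset.mem_filter.1 ha').1, (Finset.mem_filter.1 ha').2, ?_⟩
        have h2 := hs.mul (⟨b, rfl⟩ : IsSquare (b * b))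
        rw [← hb]
        rwa [show core a' * vl a * (b * b) = vl a * (b ^ 2 * core a') by ring] at h2
    · intro h
      rcases Nat.eq_zero_or_pos (vl a) with h0 | h0
      · exact ⟨1, by simp [rl], ⟨0, by simp [h0]⟩⟩
      · obtain ⟨m, hm, hs⟩ := cls_mem (by omega) hb h
        exact ⟨m, by rw [rl, Finset.mem_toList]; exact Finset.mem_insert_of_mem hm, by rwa [mul_comm]⟩
  | succ j ih =>
    intro es a hp hb
    rw [gp] at hb
    have he : 1 ≤ vl (fst es) := Nat.one_le_iff_ne_zero.2 hp.1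
    rw [tst, Gj]
    have h1 := ih (snd es) a hp.2 (lt_of_le_of_lt (Nat.mul_le_mul_left _
      (by simpa using Nat.mul_le_mul_right (gp j (snd es)) he)) hb)
    have h2 := ih (snd es) (mul a (fst es)) hp.2 (by rwa [vl_mul, mul_assoc])
    rw [vl_mul] at h2
    by_cases h : tst j (snd es) a (encL (rl s Rt)) = leaf
    · rw [if_pos h]
      have : ¬ Gj Rt j (snd es) (vl a) := fun h3 => (h1.2 h3) h
      tauto
    · rw [if_neg h]
      have h3 := h1.1 h
      have h4 : one ≠ leaf := by simp [one]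
      tauto

/-- keep the classified radicands, on `node a (node es Rt)` -/
def gc (j : ℕ) (w : Tr) : Tr := if tst j (fst (snd w)) (fst w) (snd (snd w)) = leaf then leaf else node (fst w) leaf

/-- keep the other radicands -/
def gu (j : ℕ) (w : Tr) : Tr := if tst j (fst (snd w)) (fst w) (snd (snd w)) = leaf then node (fst w) leaf else leaf

theorem gc_pos {j : ℕ} {a es Rt : Tr} (h : tst j es a Rt = leaf) : gc j (node a (node es Rt)) = leaf := if_pos h
theorem gc_neg {j : ℕ} {a es Rt : Tr} (h : ¬ tst j es a Rt = leaf) : gc j (node a (node es Rt)) = node a leaf :=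
  if_neg h
theorem gu_pos {j : ℕ} {a es Rt : Tr} (h : tst j es a Rt = leaf) : gu j (node a (node es Rt)) = node a leaf :=
  if_pos h
theorem gu_neg {j : ℕ} {a es Rt : Tr} (h : ¬ tst j es a Rt = leaf) : gu j (node a (node es Rt)) = leaf := if_neg h

def cld (j : ℕ) (es l Rt : Tr) : Tr := catL (gc j) l (node es Rt)
def unc (j : ℕ) (es l Rt : Tr) : Tr := catL (gu j) l (node es Rt)

theorem cld' (j : ℕ) {X Y Z : Tr → Tr} (hX : FP X) (hY : FP Y) (hZ : FP Z) :
    FP (fun v => cld j (X v) (Y v) (Z v)) :=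
  catL' (FP.ite' (tst' j (FP.fst' (FP.snd' FP.id')) (FP.fst' FP.id') (FP.snd' (FP.snd' FP.id')))
    FP.leaf' (FP.node' (FP.fst' FP.id') FP.leaf')) hY (FP.node' hX hZ)

theorem unc' (j : ℕ) {X Y Z : Tr → Tr} (hX : FP X) (hY : FP Y) (hZ : FP Z) :
    FP (fun v => unc j (X v) (Y v) (Z v)) :=
  catL' (FP.ite' (tst' j (FP.fst' (FP.snd' FP.id')) (FP.fst' FP.id') (FP.snd' (FP.snd' FP.id')))
    (FP.node' (FP.fst' FP.id') FP.leaf') FP.leaf') hY (FP.node' hX hZ)

theorem rv_cu (j : ℕ) (es l Rt : Tr) : rv (cld j es l Rt) + rv (unc j es l Rt) = rv l := by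
  rw [cld, unc, rv_catL, rv_catL]
  induction l with
  | leaf => simp [rvs, rv]
  | node a l _ ih =>
    rw [rvs, rvs, rv, ← ih]
    by_cases h : tst j es a Rt = leaf
    · rw [gc_pos h, gu_pos h]
      simp only [rv]
      ring
    · rw [gc_neg h, gu_neg h]
      simp only [rv]
      ring

theorem Al_cld {Rt : Finset ℕ} {s : ℕ} (h1 : 1 ∈ Rt) {P : ℕ → Prop} {j : ℕ} {es l : Tr} (hp : pos j es)
    (hP : ∀ d, P d → d * gp j es < 2 ^ s) (h : Al P l) :
    Al (fun d => P d ∧ Gj Rt j es d) (cld j es l (encL (rl s Rt))) := by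
  refine Al_catL (P := P) (fun a ha => ?_) h
  by_cases h : tst j es a (encL (rl s Rt)) = leaf
  · rw [gc_pos h]
    trivial
  · rw [gc_neg h]
    exact ⟨⟨ha, (tst_spec h1 j es a hp (hP _ ha)).1 h⟩, trivial⟩

theorem Al_unc {Rt : Finset ℕ} {s : ℕ} (h1 : 1 ∈ Rt) {P : ℕ → Prop} {j : ℕ} {es l : Tr} (hp : pos j es)
    (hP : ∀ d, P d → d * gp j es < 2 ^ s) (h : Al P l) :
    Al (fun d => P d ∧ ¬ Gj Rt j es d) (unc j es l (encL (rl s Rt))) := by
  refine Al_catL (P := P) (fun a ha => ?_) h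
  by_cases h : tst j es a (encL (rl s Rt)) = leaf
  · rw [gu_pos h]
    exact ⟨⟨ha, fun h2 => (tst_spec h1 j es a hp (hP _ ha)).2 h2 h⟩, trivial⟩
  · rw [gu_neg h]
    trivial

theorem unc_leaf {Rt : Finset ℕ} {s : ℕ} (h1 : 1 ∈ Rt) {j : ℕ} {es l : Tr} (hp : pos j es)
    (hl : Al (fun d => d * gp j es < 2 ^ s) l)
    (h : unc j es l (encL (rl s Rt)) = leaf) : Al (Gj Rt j es) l := by
  rw [unc, catL_leaf] at h
  induction l with
  | leaf => trivial
  | node a l _ ih =>
    refine ⟨?_, ih hl.2 h.2⟩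
    apply (tst_spec h1 j es a hp hl.1).1
    intro h2
    have h3 := h.1
    rw [gu_pos h2] at h3
    simp at h3

theorem Al_true (l : Tr) : Al (fun _ => True) l := by
  induction l with
  | leaf => trivial
  | node a l _ ih => exact ⟨trivial, ih⟩

theorem Al_and {P Q : ℕ → Prop} {l : Tr} (h : Al P l) (h' : Al Q l) : Al (fun d => P d ∧ Q d) l := by
  induction l with
  | leaf => trivial
  | node a l _ ih => exact ⟨⟨h.1, h'.1⟩, ih h.2 h'.2⟩

/-- the generators -/
def gn : ℕ → Tr → Tr → Tr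
  | 0, _, _ => leaf
  | j + 1, l, Rt => node (nxt (unc j (gn j l Rt) l Rt)) (gn j l Rt)

theorem gn' (j : ℕ) {X Y : Tr → Tr} (hX : FP X) (hY : FP Y) : FP (fun v => gn j (X v) (Y v)) := by
  induction j with
  | zero => exact FP.leaf'
  | succ j ih => exact FP.node' (nxt' (unc' j ih hX hY)) ih

theorem gn_spec {R Rt E : Finset ℕ} {t s s' : ℕ} (h1 : 1 ∈ R) (hRt : Rt = R ^ 2 ^ t)
    (hs' : s * (t + 1) ≤ s') (hE : ∀ e ∈ E, e ≠ 0) (hEt : E.card ≤ t) {l : Tr}
    (hls : Al (fun d => d < 2 ^ s) l) (hl : Al (fun d => ∃ F ⊆ E, Cl R (d * ∏ e ∈ F, e)) l)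
    (j : ℕ) (hj : j ≤ t) : (pos j (gn j l (encL (rl s' Rt))) ∧ gp j (gn j l (encL (rl s' Rt))) ≤ 2 ^ (s * j)) ∧
      (Al (Gj Rt j (gn j l (encL (rl s' Rt)))) l ∨
      ∃ E' : Finset ℕ, E'.card + j ≤ t ∧ (∀ e ∈ E', e ≠ 0) ∧
        Al (fun d => ∃ F ⊆ E', Gj (R ^ 2 ^ j) j (gn j l (encL (rl s' Rt))) (d * ∏ e ∈ F, e)) l) := by
  have hsub : ∀ i, i ≤ t → R ^ 2 ^ i ⊆ Rt := by
    intro i hi
    rw [hRt]
    exact Finset.pow_subset_pow_right h1 (Nat.pow_le_pow_right (by norm_num) hi)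
  have h1Rt : 1 ∈ Rt := by rw [hRt]; exact one_mem_pow h1 _
  induction j with
  | zero =>
    refine ⟨⟨trivial, by simp [gp]⟩, Or.inr ⟨E, by omega, hE, ?_⟩⟩
    rw [pow_zero, pow_one]
    exact hl
  | succ j ih =>
    obtain ⟨⟨hp, hgp⟩, ih⟩ := ih (by omega)
    set es := gn j l (encL (rl s' Rt)) with hes
    have hgn : gn (j + 1) l (encL (rl s' Rt)) = node (nxt (unc j es l (encL (rl s' Rt)))) es := rfl
    rw [hgn]
    have hb : ∀ d, d < 2 ^ s → d * gp j es < 2 ^ s' := by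
      intro d hd
      calc d * gp j es < 2 ^ s * 2 ^ (s * j) := by
            refine lt_of_le_of_lt (Nat.mul_le_mul_left d hgp) ?_
            exact Nat.mul_lt_mul_of_pos_right hd (by positivity)
        _ = 2 ^ (s * (j + 1)) := by rw [← pow_add]; ring_nf
        _ ≤ 2 ^ s' := Nat.pow_le_pow_right (by norm_num)
            ((Nat.mul_le_mul_left s (by omega)).trans hs')
    have hstay : Al (Gj Rt j es) l → ∀ x : Tr, Al (Gj Rt (j + 1) (node x es)) l :=
      fun h x => Al_mono (fun d hd => Or.inl hd) h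
    have hposx : ∀ x : Tr, vl x ≠ 0 → pos (j + 1) (node x es) := fun x hx => ⟨hx, hp⟩
    rcases hu : unc j es l (encL (rl s' Rt)) with _ | ⟨u, r⟩
    · have h2 := unc_leaf h1Rt hp (Al_mono hb hls) hu
      refine ⟨⟨hposx _ ?_, ?_⟩, Or.inl (hstay h2 _)⟩
      · rw [nxt, if_pos rfl, vl_encN]
        exact one_ne_zero
      · rw [gp, FP.fst_nd, FP.snd_nd, nxt, if_pos rfl, vl_encN, one_mul]
        exact hgp.trans (Nat.pow_le_pow_right (by norm_num) (Nat.mul_le_mul_left s (by omega)))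
    · have hnx : nxt (node u r) = u := by rw [nxt, if_neg (by simp)]; rfl
      rw [hnx]
      have h3 := Al_unc (Rt := Rt) h1Rt hp hb hls
      rw [hu] at h3
      have hune : ¬ Gj Rt j es (vl u) := h3.1.2
      have hus : vl u < 2 ^ s := h3.1.1
      have hu0 : vl u ≠ 0 := by
        intro h3
        rw [h3] at hune
        exact hune (Gj_zero h1Rt j)
      refine ⟨⟨hposx _ hu0, ?_⟩, ?_⟩
      · rw [gp, FP.fst_nd, FP.snd_nd]
        calc vl u * gp j es ≤ 2 ^ s * 2 ^ (s * j) := Nat.mul_le_mul hus.le hgp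
          _ = 2 ^ (s * (j + 1)) := by rw [← pow_add]; ring_nf
      rcases ih with ih | ⟨E', hE'c, hE'0, ih⟩
      · exact Or.inl (hstay ih _)
      · right
        have h4 := Al_unc (Rt := Rt) h1Rt hp (P := fun d => d < 2 ^ s ∧ ∃ F ⊆ E', Gj (R ^ 2 ^ j) j es (d * ∏ e ∈ F, e))
          (fun d hd => hb d hd.1) (Al_and hls ih)
        rw [hu] at h4
        obtain ⟨e0, he0, hstep⟩ := Gj_step hp (one_mem_pow h1 _) (hsub j (by omega)) hE'0 h4.1.1.2 hune
        refine ⟨E'.erase e0, ?_, fun e he => hE'0 e (Finset.mem_of_mem_erase he), ?_⟩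
        · rw [Finset.card_erase_of_mem he0]
          have : 0 < E'.card := Finset.card_pos.2 ⟨e0, he0⟩
          omega
        · have e : R ^ 2 ^ (j + 1) = R ^ 2 ^ j * R ^ 2 ^ j := by rw [← pow_add, pow_succ' 2 j, two_mul]
          rw [e]
          exact Al_mono (fun d hd => hstep u rfl d hd) ih

/-- the tower element of a list of radicands -/
def ex : ℕ → Tr → Tr → Tr → Tr
  | 0, _, l, _ => node l leaf
  | j + 1, es, l, Rt => node (ex j (snd es) (cld j (snd es) l Rt) Rt)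
      (ex j (snd es) (scl (unc j (snd es) l Rt) (fst es)) Rt)

theorem ex' (j : ℕ) : ∀ {X Y Z : Tr → Tr}, FP X → FP Y → FP Z → FP (fun v => ex j (X v) (Y v) (Z v)) := by
  induction j with
  | zero => exact fun _ hY _ => FP.node' hY FP.leaf'
  | succ j ih =>
    intro X Y Z hX hY hZ
    exact FP.node' (ih (FP.snd' hX) (cld' j (FP.snd' hX) hY hZ) hZ)
      (ih (FP.snd' hX) (scl' (unc' j (FP.snd' hX) hY hZ) (FP.fst' hX)) hZ)

theorem tv_ex (j : ℕ) : ∀ es l Rt : Tr, pos j es → tv j es (ex j es l Rt) = rv l := by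
  induction j with
  | zero => exact fun es l Rt _ => by simp [tv, ex, fv, fst, snd, rv]
  | succ j ih =>
    intro es l Rt hp
    have h0 : (0 : ℝ) < vl (fst es) := by exact_mod_cast Nat.pos_of_ne_zero hp.1
    have h3 : √(vl (fst es) : ℝ) ≠ 0 := (Real.sqrt_pos.2 h0).ne'
    rw [tv, ex, FP.fst_nd, FP.snd_nd, ih _ _ _ hp.2, ih _ _ _ hp.2, rv_scl, ← rv_cu j (snd es) l Rt]
    field_simp

theorem tAl_ex {Rt : Finset ℕ} {s : ℕ} (h1 : 1 ∈ Rt) (j : ℕ) : ∀ {es l : Tr}, pos j es →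
    Al (fun d => Gj Rt j es d ∧ d * gp j es < 2 ^ s) l → tAl (Cl Rt) j (ex j es l (encL (rl s Rt))) := by
  induction j with
  | zero => exact fun _ h => ⟨Al_mono (fun d hd => hd.1) h, trivial⟩
  | succ j ih =>
    intro es l hp h
    have he : 1 ≤ vl (fst es) := Nat.one_le_iff_ne_zero.2 hp.1
    have hb : ∀ d, (Gj Rt (j + 1) es d ∧ d * gp (j + 1) es < 2 ^ s) → d * gp j (snd es) < 2 ^ s := by
      intro d hd
      refine lt_of_le_of_lt (Nat.mul_le_mul_left _ ?_) hd.2
      rw [gp]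
      simpa using Nat.mul_le_mul_right (gp j (snd es)) he
    refine ⟨ih hp.2 (Al_mono (fun d hd => ⟨hd.2, hb d hd.1⟩) (Al_cld h1 hp.2 hb h)), ih hp.2 ?_⟩
    refine Al_scl (Al_unc h1 hp.2 hb h) fun d hd => ⟨?_, ?_⟩
    · rcases hd.1.1 with h2 | h2
      · exact absurd h2 hd.2
      · exact h2
    · have := hd.1.2
      rwa [gp, ← mul_assoc] at this

end Pool.Agent.H84.PP
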