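import Pool.Agent.H84.PP.Fin

/-!
MP_3b0ce5_lc: lists of radicands and signed forms.
-/

set_option autoImplicit false

namespace Pool.Agent.H84.PP

open Pool.Agent.H92.SR Pool.Agent.H92.SR.Tr

/-- the sum of the square roots of a list of radicands -/
noncomputable def rv : Tr → ℝ
  | leaf => 0
  | node a l => √(vl a : ℝ) + rv l

/-- all radicands of a list satisfy `Q` -/
def Al (Q : ℕ → Prop) : Tr → Prop
  | leaf => True
  | node a l => Q (vl a) ∧ Al Q l

/-- the value of a signed form: the first list counts positively, the second one negatively -/
noncomputable def fv (F : Tr) : ℝ := rv (fst F) - rv (snd F)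

/-- the radicands in the square classes of `R` -/
def Cl (R : Finset ℕ) (d : ℕ) : Prop := ∃ a ∈ R, a ≠ 0 ∧ IsSquare (d * a)

/-- the sign test by the table: not `leaf` if the value of the form is at most `0` -/
def lt0 (tab F : Tr) : Tr :=
  if ltb (sumL tf (snd F) tab) (sumL tf (fst F) tab) = true then leaf else bit true

end Pool.Agent.H84.PP
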