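import Pool.Agent.H84.PP.Twr

/-!
MP_3b0ce5_lc: splitting off the square classes which are not in the table.
-/

set_option autoImplicit false

namespace Pool.Agent.H84.PP

open Pool.Agent.H92.SR Pool.Agent.H92.SR.Tr
open scoped Pointwise

/-- `leaf` if the product of the components is a square -/
def sqt (w : Tr) : Tr := fst (sqf (mul (fst w) (snd w)) leaf)

theorem sqt' {X : Tr → Tr} (hX : FP X) : FP (fun v => sqt (X v)) :=
  FP.fst' (FP.sqf' (mul' (FP.fst' hX) (FP.snd' hX)) FP.leaf')

theorem sqt_leaf (a b : Tr) : sqt (node a b) = leaf ↔ IsSquare (vl a * vl b) := by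
  rw [sqt, sqf_leaf, vl_mul]
  rfl

/-- the products by `e` of the radicands in the class of `e` -/
def selp (e l : Tr) : Tr := catL (fun w => if sqt w = leaf then node (mul (fst w) (snd w)) leaf else leaf) l e

/-- the radicands not in the class of `e` -/
def rej (e l : Tr) : Tr := catL (fun w => if sqt w = leaf then leaf else node (fst w) leaf) l e

theorem selp' {X Y : Tr → Tr} (hX : FP X) (hY : FP Y) : FP (fun v => selp (X v) (Y v)) :=
  catL' (FP.ite' (sqt' FP.id') (FP.node' (mul' (FP.fst' FP.id') (FP.snd' FP.id')) FP.leaf') FP.leaf') hY hX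

theorem rej' {X Y : Tr → Tr} (hX : FP X) (hY : FP Y) : FP (fun v => rej (X v) (Y v)) :=
  catL' (FP.ite' (sqt' FP.id') FP.leaf' (FP.node' (FP.fst' FP.id') FP.leaf')) hY hX

theorem rv_split (e l : Tr) (he : vl e ≠ 0) :
    rv (rej e l) + rv (selp e l) * (√(vl e : ℝ))⁻¹ = rv l := by
  have h0 : (0 : ℝ) < vl e := by exact_mod_cast Nat.pos_of_ne_zero he
  have h3 : √(vl e : ℝ) ≠ 0 := (Real.sqrt_pos.2 h0).ne'
  rw [rej, selp, rv_catL, rv_catL]
  induction l with
  | leaf => simp [rvs, rv]
  | node a l _ ih =>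
    rw [rvs, rvs, rv, ← ih]
    by_cases h : sqt (node a e) = leaf
    · rw [if_pos h, if_pos h]
      simp only [rv, FP.fst_nd, FP.snd_nd]
      rw [vl_mul, Nat.cast_mul, Real.sqrt_mul (Nat.cast_nonneg _)]
      field_simp
      ring
    · rw [if_neg h, if_neg h]
      simp only [rv, FP.fst_nd]
      ring

theorem Al_selp {Q : ℕ → Prop} (hQ : ∀ d, IsSquare d → Q d) (e l : Tr) : Al Q (selp e l) := by
  have h : Al (fun _ => True) l := by
    induction l with
    | leaf => trivial
    | node a l _ ih => exact ⟨trivial, ih⟩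
  refine Al_catL (P := fun _ => True) (fun a _ => ?_) h
  by_cases h : sqt (node a e) = leaf
  · rw [if_pos h]
    refine ⟨hQ _ ?_, trivial⟩
    simp only [FP.fst_nd, FP.snd_nd]
    rw [vl_mul]
    exact (sqt_leaf _ _).1 h
  · rw [if_neg h]
    trivial

theorem Al_rej {P : ℕ → Prop} {e l : Tr} (h : Al P l) : Al (fun d => P d ∧ ¬ IsSquare (d * vl e)) (rej e l) := by
  refine Al_catL (P := P) (fun a ha => ?_) h
  by_cases h : sqt (node a e) = leaf
  · rw [if_pos h]
    trivial
  · rw [if_neg h]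
    exact ⟨⟨ha, fun h2 => h ((sqt_leaf _ _).2 h2)⟩, trivial⟩

/-- a form as an element of the tower -/
def emb : ℕ → Tr → Tr
  | 0, x => x
  | j + 1, x => node (emb j x) (emb j (node leaf leaf))

theorem emb' (j : ℕ) : ∀ {X : Tr → Tr}, FP X → FP (fun v => emb j (X v)) := by
  induction j with
  | zero => exact fun hX => hX
  | succ j ih => exact fun hX => FP.node' (ih hX) (ih (FP.const' _))

theorem tv_emb (j : ℕ) : ∀ es x : Tr, tv j es (emb j x) = fv x := by
  induction j with
  | zero => exact fun es x => rfl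
  | succ j ih =>
    intro es x
    simp only [tv, emb, FP.fst_nd, FP.snd_nd, ih]
    simp [fv, rv, fst, snd]

theorem tAl_emb {Q : ℕ → Prop} (j : ℕ) : ∀ {x : Tr}, fAl Q x → tAl Q j (emb j x) := by
  induction j with
  | zero => exact fun hx => hx
  | succ j ih => exact fun hx => ⟨ih hx, ih ⟨trivial, trivial⟩⟩

/-- the radicand which defines the next class -/
def nxt (l : Tr) : Tr := if l = leaf then encN 1 else fst l

theorem nxt' {X : Tr → Tr} (hX : FP X) : FP (fun v => nxt (X v)) := FP.ite' hX (FP.const' _) (FP.fst' hX)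

/-- the tower and the element of the tower -/
def mk : ℕ → Tr → Tr → Tr
  | 0, F, _ => node leaf F
  | j + 1, F, l =>
    node (node (nxt l) (fst (mk j F (rej (nxt l) l))))
      (node (snd (mk j F (rej (nxt l) l))) (emb j (node (selp (nxt l) l) leaf)))

theorem mk' (j : ℕ) : ∀ {X Y : Tr → Tr}, FP X → FP Y → FP (fun v => mk j (X v) (Y v)) := by
  induction j with
  | zero => exact fun hX _ => FP.node' FP.leaf' hX
  | succ j ih =>
    intro X Y hX hY
    have h := ih hX (rej' (nxt' hY) hY)
    exact FP.node' (FP.node' (nxt' hY) (FP.fst' h))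
      (FP.node' (FP.snd' h) (emb' j (FP.node' (selp' (nxt' hY) hY) FP.leaf')))

theorem mk_spec (j : ℕ) : ∀ (F l : Tr) (E : Finset ℕ), Al (fun d => d ≠ 0) l → E.card ≤ j → Al (Cl E) l →
    tv j (fst (mk j F l)) (snd (mk j F l)) = fv F + rv l ∧ pos j (fst (mk j F l)) := by
  induction j with
  | zero =>
    intro F l E _ hE hl
    have hE0 : E = ∅ := Finset.card_eq_zero.1 (by omega)
    subst hE0
    cases l with
    | leaf => exact ⟨by simp [mk, tv, snd, rv], trivial⟩
    | node a l =>
      obtain ⟨b, hb, -⟩ := hl.1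
      exact absurd hb (Finset.notMem_empty b)
  | succ j ih =>
    intro F l E hl0 hE hl
    have hnz : vl (nxt l) ≠ 0 := by
      cases l with
      | leaf => rw [nxt, if_pos rfl, vl_encN]; exact one_ne_zero
      | node a l => rw [nxt, if_neg (by simp)]; exact hl0.1
    have hr0 : Al (fun d => d ≠ 0) (rej (nxt l) l) := Al_mono (fun d hd => hd.1) (Al_rej hl0)
    obtain ⟨E', hE', hE'2⟩ : ∃ E' : Finset ℕ, E'.card ≤ j ∧ Al (Cl E') (rej (nxt l) l) := by
      cases l with
      | leaf => exact ⟨∅, by simp, trivial⟩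
      | node a l =>
        obtain ⟨b, hb, hb0, hsq⟩ := hl.1
        refine ⟨E.erase b, by rw [Finset.card_erase_of_mem hb]; omega, ?_⟩
        refine Al_mono (fun d hd => ?_) (Al_rej hl)
        obtain ⟨⟨b', hb', hb0', hsq'⟩, hn⟩ := hd
        refine ⟨b', Finset.mem_erase.2 ⟨?_, hb'⟩, hb0', hsq'⟩
        rintro rfl
        apply hn
        rw [nxt, if_neg (by simp)]
        have h1 := hsq'.mul hsq
        rw [FP.fst_nd]
        have h2 : IsSquare ((d * vl a) * (b' ^ 2 * 1)) := by
          rwa [show d * b' * (vl a * b') = d * vl a * (b' ^ 2 * 1) by ring] at h1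
        have h3 := sq_cancel hb0' h2
        rwa [mul_one] at h3
    obtain ⟨i1, i2⟩ := ih F (rej (nxt l) l) E' hr0 hE' hE'2
    refine ⟨?_, ?_⟩
    · simp only [tv, mk, FP.fst_nd, FP.snd_nd]
      rw [i1, tv_emb]
      have h1 := rv_split (nxt l) l hnz
      have h2 : fv (node (selp (nxt l) l) leaf) = rv (selp (nxt l) l) := by simp [fv, fst, snd, rv]
      rw [h2, add_assoc, h1]
    · exact ⟨hnz, i2⟩

theorem tAl_mk {Q : ℕ → Prop} (hQ : ∀ d, IsSquare d → Q d) (j : ℕ) : ∀ {F l : Tr}, fAl Q F →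
    tAl Q j (snd (mk j F l)) := by
  induction j with
  | zero => exact fun hF => hF
  | succ j ih =>
    intro F l hF
    exact ⟨ih hF, tAl_emb j ⟨Al_selp hQ _ _, trivial⟩⟩

/-! ### the classes of the table -/

/-- the test of an entry -/
def gx (w : Tr) : Tr := if sqt w = leaf then one else leaf

theorem gx_leaf (m : ℕ) (a : Tr) : gx (node (encN m) a) = leaf ↔ ¬ IsSquare (m * vl a) := by
  have h2 := sqt_leaf (encN m) a
  rw [vl_encN] at h2
  unfold gx
  by_cases h : sqt (node (encN m) a) = leaf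
  · rw [if_pos h]
    have h3 : one ≠ leaf := by simp [one]
    have := h2.1 h
    exact ⟨fun h4 => absurd h4 h3, fun h4 => absurd this h4⟩
  · rw [if_neg h]
    exact ⟨fun _ h4 => h (h2.2 h4), fun _ => rfl⟩

/-- not `leaf` if some entry of the list `Rt` is in the class of `a` -/
def exL (a Rt : Tr) : Tr := catL gx Rt a

theorem exL' {X Y : Tr → Tr} (hX : FP X) (hY : FP Y) : FP (fun v => exL (X v) (Y v)) :=
  catL' (FP.ite' (sqt' FP.id') (FP.const' _) FP.leaf') hY hX

theorem exL_spec (a : Tr) (l : List ℕ) : exL a (encL l) = leaf ↔ ∀ m ∈ l, ¬ IsSquare (m * vl a) := by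
  rw [exL, catL_leaf]
  induction l with
  | nil => simp [encL, Nn]
  | cons m l ih =>
    rw [encL, Nn, ih, gx_leaf]
    simp

/-- keep the radicands in the classes of the table -/
def ga (w : Tr) : Tr := if exL (fst w) (snd w) = leaf then leaf else node (fst w) leaf

/-- keep the other radicands -/
def go (w : Tr) : Tr := if exL (fst w) (snd w) = leaf then node (fst w) leaf else leaf

theorem ga_pos {a Rt : Tr} (h : exL a Rt = leaf) : ga (node a Rt) = leaf := if_pos h
theorem ga_neg {a Rt : Tr} (h : ¬ exL a Rt = leaf) : ga (node a Rt) = node a leaf := if_neg h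
theorem go_pos {a Rt : Tr} (h : exL a Rt = leaf) : go (node a Rt) = node a leaf := if_pos h
theorem go_neg {a Rt : Tr} (h : ¬ exL a Rt = leaf) : go (node a Rt) = leaf := if_neg h

/-- the radicands in the classes of the table -/
def inA (Rt l : Tr) : Tr := catL ga l Rt

/-- the other radicands -/
def outA (Rt l : Tr) : Tr := catL go l Rt

theorem inA' {X Y : Tr → Tr} (hX : FP X) (hY : FP Y) : FP (fun v => inA (X v) (Y v)) :=
  catL' (FP.ite' (exL' (FP.fst' FP.id') (FP.snd' FP.id')) FP.leaf' (FP.node' (FP.fst' FP.id') FP.leaf')) hY hX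

theorem outA' {X Y : Tr → Tr} (hX : FP X) (hY : FP Y) : FP (fun v => outA (X v) (Y v)) :=
  catL' (FP.ite' (exL' (FP.fst' FP.id') (FP.snd' FP.id')) (FP.node' (FP.fst' FP.id') FP.leaf') FP.leaf') hY hX

theorem rv_io (Rt l : Tr) : rv (inA Rt l) + rv (outA Rt l) = rv l := by
  rw [inA, outA, rv_catL, rv_catL]
  induction l with
  | leaf => simp [rvs, rv]
  | node a l _ ih =>
    rw [rvs, rvs, rv, ← ih]
    by_cases h : exL a Rt = leaf
    · rw [ga_pos h, go_pos h]
      simp only [rv]
      ring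
    · rw [ga_neg h, go_neg h]
      simp only [rv]
      ring

theorem Al_inA {P : ℕ → Prop} {rl : List ℕ} {l : Tr} (h : Al P l) :
    Al (fun d => P d ∧ ∃ m ∈ rl, IsSquare (m * d)) (inA (encL rl) l) := by
  refine Al_catL (P := P) (fun a ha => ?_) h
  by_cases h : exL a (encL rl) = leaf
  · rw [ga_pos h]
    trivial
  · rw [ga_neg h]
    refine ⟨⟨ha, ?_⟩, trivial⟩
    by_contra h2
    push Not at h2
    exact h ((exL_spec a rl).2 h2)

theorem Al_outA {P : ℕ → Prop} {rl : List ℕ} {l : Tr} (h : Al P l) :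
    Al (fun d => P d ∧ ∀ m ∈ rl, ¬ IsSquare (m * d)) (outA (encL rl) l) := by
  refine Al_catL (P := P) (fun a ha => ?_) h
  by_cases h : exL a (encL rl) = leaf
  · rw [go_pos h]
    exact ⟨⟨ha, (exL_spec a rl).1 h⟩, trivial⟩
  · rw [go_neg h]
    trivial

/-- the program -/
def ans2 (t : ℕ) (v : Tr) : Tr :=
  let Rt := fst (fst v)
  let tab := snd (fst v)
  let l := fst (snd v)
  let k := snd (snd v)
  let r := mk t (node (inA Rt l) (node (mul k k) leaf)) (outA Rt l)
  if le0 t tab (fst r) (snd r) = leaf then bit false else bit true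

theorem ans2' (t : ℕ) : FP (ans2 t) := by
  have hR : FP fun v => fst (fst v) := FP.fst' (FP.fst' FP.id')
  have hT : FP fun v => snd (fst v) := FP.snd' (FP.fst' FP.id')
  have hl : FP fun v => fst (snd v) := FP.fst' (FP.snd' FP.id')
  have hk : FP fun v => snd (snd v) := FP.snd' (FP.snd' FP.id')
  have hr := mk' t (FP.node' (inA' hR hl) (FP.node' (mul' hk hk) FP.leaf')) (outA' hR hl)
  exact FP.ite' (le0' t hT (FP.fst' hr) (FP.snd' hr)) (FP.const' _) (FP.const' _)

end Pool.Agent.H84.PP
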