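import Pool.Agent.H84.PP.Lst

/-!
MP_3b0ce5_lc: the sign of a signed form by a table of weights.
-/

set_option autoImplicit false

namespace Pool.Agent.H84.PP

open Pool.Agent.H92.SR Pool.Agent.H92.SR.Tr

/-- natural weights of polynomial length for signed sums -/
theorem weights2 (s : ℕ) (M : Finset ℕ) (hM : ∀ m ∈ M, Squarefree m) : ∃ W : ℕ → ℕ,
    (∀ m ∈ M, Nat.size (W m) ≤ (M.card + 1) ^ 2 + 2 * s * (M.card + 1) + 1) ∧
    ∀ c c' : ℕ → ℕ, (∀ m ∈ M, c m ≤ 2 ^ (2 * s)) → (∀ m ∈ M, c' m ≤ 2 ^ (2 * s)) →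
      (∑ m ∈ M, (c m : ℝ) * (√(m : ℝ))⁻¹ ≤ ∑ m ∈ M, (c' m : ℝ) * (√(m : ℝ))⁻¹ ↔
        ∑ m ∈ M, c m * W m ≤ ∑ m ∈ M, c' m * W m) := by
  classical
  let v : M → ℝ := fun m => (√((m : ℕ) : ℝ))⁻¹
  have hv : ∀ i, 0 < v i := by
    intro m
    have h1 : 0 < (m : ℕ) := Nat.pos_of_ne_zero (hM m m.2).ne_zero
    exact inv_pos.2 (Real.sqrt_pos.2 (by exact_mod_cast h1))
  obtain ⟨W, hW1, hW2⟩ := thr v hv (C := 2 ^ (2 * s)) Nat.one_le_two_pow
  have hcard : Fintype.card M = M.card := by simp
  rw [hcard] at hW1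
  have hpos : ∀ i, 0 ≤ W i := by
    intro i
    have h1 := hW2 (Pi.single i 1) (by
      intro j
      by_cases hj : j = i
      · subst hj
        rw [Pi.single_eq_same, abs_one]
        exact_mod_cast Nat.one_le_two_pow
      · rw [Pi.single_eq_of_ne hj, abs_zero]
        positivity)
    have h2 : ∑ j, ((Pi.single i 1 : M → ℤ) j : ℝ) * v j = v i := by
      rw [Finset.sum_eq_single i]
      · simp
      · intro j _ hj
        simp [Pi.single_eq_of_ne hj]
      · simp
    have h3 : ∑ j, (Pi.single i 1 : M → ℤ) j * W j = W i := by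
      rw [Finset.sum_eq_single i]
      · simp
      · intro j _ hj
        simp [Pi.single_eq_of_ne hj]
      · simp
    rw [h2, h3] at h1
    exact h1.1 (hv i).le
  have hsize : ∀ i, Nat.size (W i).toNat ≤ (M.card + 1) ^ 2 + 2 * s * (M.card + 1) + 1 := by
    intro i
    apply Nat.size_le.2
    have h1 := hW1 i
    rw [abs_of_nonneg (hpos i)] at h1
    have h2 : (W i).toNat ≤ M.card.factorial * (2 ^ (2 * s)) ^ M.card := by
      zify
      rw [Int.toNat_of_nonneg (hpos i)]
      exact_mod_cast h1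
    have h3 : M.card.factorial ≤ 2 ^ (M.card ^ 2) := by
      calc M.card.factorial ≤ M.card ^ M.card := Nat.factorial_le_pow _
        _ ≤ (2 ^ M.card) ^ M.card := Nat.pow_le_pow_left Nat.lt_two_pow_self.le _
        _ = 2 ^ (M.card ^ 2) := by rw [← pow_mul]; ring_nf
    calc (W i).toNat ≤ M.card.factorial * (2 ^ (2 * s)) ^ M.card := h2
      _ ≤ 2 ^ (M.card ^ 2) * (2 ^ (2 * s)) ^ M.card := Nat.mul_le_mul_right _ h3
      _ = 2 ^ (M.card ^ 2 + 2 * s * M.card) := by rw [← pow_mul, ← pow_add]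
      _ < 2 ^ ((M.card + 1) ^ 2 + 2 * s * (M.card + 1) + 1) := Nat.pow_lt_pow_right (by norm_num) (by
        have e1 : M.card ^ 2 ≤ (M.card + 1) ^ 2 := Nat.pow_le_pow_left (by omega) 2
        have e2 : 2 * s * M.card ≤ 2 * s * (M.card + 1) := Nat.mul_le_mul_left _ (by omega)
        omega)
  refine ⟨fun m => if h : m ∈ M then (W ⟨m, h⟩).toNat else 0, ?_, ?_⟩
  · intro m hm
    beta_reduce
    rw [dif_pos hm]
    exact hsize _
  · intro c c' hc hc'
    have h1 := hW2 (fun m => (c' m : ℤ) - (c m : ℤ)) (by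
      intro m
      have e1 := hc m m.2
      have e2 := hc' m m.2
      rw [abs_le]
      push_cast
      have e3 : (c m : ℤ) ≤ 2 ^ (2 * s) := by exact_mod_cast e1
      have e4 : (c' m : ℤ) ≤ 2 ^ (2 * s) := by exact_mod_cast e2
      constructor <;> omega)
    simp only [v] at h1
    have key : ∀ b : ℕ → ℕ, ∑ x : M, ((b x : ℕ) : ℤ) * W x =
        ((∑ m ∈ M, b m * (if h : m ∈ M then (W ⟨m, h⟩).toNat else 0) : ℕ) : ℤ) := by
      intro b
      rw [← Finset.sum_coe_sort M (fun m => b m * (if h : m ∈ M then (W ⟨m, h⟩).toNat else 0))]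
      push_cast
      refine Finset.sum_congr rfl fun x _ => ?_
      rw [dif_pos x.2, Int.toNat_of_nonneg (hpos _)]
    have key2 : ∀ b : ℕ → ℕ, ∑ x : M, ((b x : ℕ) : ℝ) * (√((x : ℕ) : ℝ))⁻¹ =
        ∑ m ∈ M, (b m : ℝ) * (√(m : ℝ))⁻¹ := fun b =>
      Finset.sum_coe_sort M (fun m => (b m : ℝ) * (√(m : ℝ))⁻¹)
    have e1 : ∑ x : M, ((((c' x : ℕ) : ℤ) - ((c x : ℕ) : ℤ) : ℤ) : ℝ) * (√((x : ℕ) : ℝ))⁻¹ =
        ∑ m ∈ M, (c' m : ℝ) * (√(m : ℝ))⁻¹ - ∑ m ∈ M, (c m : ℝ) * (√(m : ℝ))⁻¹ := by
      rw [← key2, ← key2, ← Finset.sum_sub_distrib]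
      refine Finset.sum_congr rfl fun x _ => ?_
      push_cast
      ring
    have e2 : ∑ x : M, (((c' x : ℕ) : ℤ) - ((c x : ℕ) : ℤ)) * W x =
        ((∑ m ∈ M, c' m * (if h : m ∈ M then (W ⟨m, h⟩).toNat else 0) : ℕ) : ℤ) -
        ((∑ m ∈ M, c m * (if h : m ∈ M then (W ⟨m, h⟩).toNat else 0) : ℕ) : ℤ) := by
      rw [← key, ← key, ← Finset.sum_sub_distrib]
      refine Finset.sum_congr rfl fun x _ => ?_
      ring
    rw [e1, e2, sub_nonneg, sub_nonneg] at h1
    rw [h1]
    exact_mod_cast Iff.rfl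

/-- the radicands of a list -/
def tl : Tr → List ℕ
  | leaf => []
  | node a l => vl a :: tl l

theorem rv_tl (l : Tr) : rv l = ((tl l).map fun d : ℕ => √(d : ℝ)).sum := by
  induction l with
  | leaf => simp [rv, tl]
  | node a l _ ih => rw [rv, tl, List.map_cons, List.sum_cons, ih]

theorem Al_tl {Q : ℕ → Prop} {l : Tr} (h : Al Q l) : ∀ d ∈ tl l, Q d := by
  induction l with
  | leaf => intro d hd; simp [tl] at hd
  | node a l _ ih =>
    intro d hd
    rw [tl, List.mem_cons] at hd
    rcases hd with rfl | hd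
    · exact h.1
    · exact ih h.2 d hd

theorem tl_lt (l : Tr) : ∀ d ∈ tl l, d < 2 ^ size l := by
  induction l with
  | leaf => intro d hd; simp [tl] at hd
  | node a l _ ih =>
    intro d hd
    rw [tl, List.mem_cons] at hd
    rcases hd with rfl | hd
    · refine (vl_lt a).trans_le (Nat.pow_le_pow_right (by norm_num) ?_)
      have := len_le_size a
      simp only [size]
      omega
    · exact (ih d hd).trans_le (Nat.pow_le_pow_right (by norm_num) (by simp only [size]; omega))

theorem length_tl (l : Tr) : (tl l).length ≤ size l := by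
  induction l with
  | leaf => simp [tl]
  | node a l _ ih =>
    rw [tl, List.length_cons]
    simp only [size]
    omega

open Classical in
theorem gf_vl' (m w : ℕ) (a : Tr) : vl (gf (node (node (encN m) (encN w)) a)) =
    if IsSquare (vl a * m) then Nat.sqrt (vl a * m) * w else 0 := by
  have e : gf (node (node (encN m) (encN w)) a) =
      if fst (sqf (mul a (encN m)) leaf) = leaf then mul (sqr (mul a (encN m)) leaf) (encN w)
      else leaf := rfl
  rw [e]
  have h1 : vl (mul a (encN m)) = vl a * m := by rw [vl_mul, vl_encN]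
  by_cases h : IsSquare (vl a * m)
  · rw [if_pos h, if_pos ((sqf_leaf _).2 (by rw [h1]; exact h)), vl_mul, vl_encN, (sqr_spec _ _).1, h1]
    rw [show len leaf = 0 from rfl, pow_zero, one_mul]
  · rw [if_neg h, if_neg (fun h2 => h (by rw [← h1]; exact (sqf_leaf _).1 h2))]
    rfl

open Classical in
theorem sm_gf' (W : ℕ → ℕ) (a : Tr) (l : List ℕ) : sm gf a (encT W l) =
    (l.map fun m => if IsSquare (vl a * m) then Nat.sqrt (vl a * m) * W m else 0).sum := by
  induction l with
  | nil => rfl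
  | cons m l ih =>
    rw [encT, sm, gf_vl', ih, List.map_cons, List.sum_cons]

open Classical in
theorem vl_tab (W : ℕ → ℕ) (l : List ℕ) (L : Tr) : vl (sumL tf L (encT W l)) =
    ((tl L).map fun d => (l.map fun m => if IsSquare (d * m) then Nat.sqrt (d * m) * W m else 0).sum).sum := by
  rw [vl_sumL]
  induction L with
  | leaf => rfl
  | node a L _ ih =>
    rw [sm, ih, tl, List.map_cons, List.sum_cons]
    congr 1
    unfold tf
    simp only [FP.fst_nd, FP.snd_nd]
    rw [vl_sumL, sm_gf']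

open Classical in
theorem table (S : ℕ) (R : Finset ℕ) : ∃ tab : Tr,
    size tab ≤ R.card * (8 * ((R.card + 1) ^ 2 + 2 * S * (R.card + 1) + 1 + S) + 4) + 1 ∧
    ∀ F : Tr, size F ≤ S → Al (Cl R) (fst F) → Al (Cl R) (snd F) → (lt0 tab F ≠ leaf ↔ fv F ≤ 0) := by
  set M := cls S R with hM
  have hMc : M.card ≤ R.card := cls_card S R
  obtain ⟨W, hW, hspec⟩ := weights2 S M (fun m hm => cls_sqf m hm)
  refine ⟨encT W M.toList, ?_, fun F hF h1 h2 => ?_⟩
  · have h1 := size_encT W ((R.card + 1) ^ 2 + 2 * S * (R.card + 1) + 1 + S) M.toList (fun m hm => by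
      rw [Finset.mem_toList] at hm
      have h2 : (M.card + 1) ^ 2 ≤ (R.card + 1) ^ 2 := Nat.pow_le_pow_left (by omega) 2
      have h3 : 2 * S * (M.card + 1) ≤ 2 * S * (R.card + 1) := Nat.mul_le_mul_left _ (by omega)
      refine ⟨?_, (hW m hm).trans (by omega)⟩
      have := Nat.size_le.2 (cls_lt m hm)
      omega)
    rw [Finset.length_toList] at h1
    have h3 := Nat.mul_le_mul_right (8 * ((R.card + 1) ^ 2 + 2 * S * (R.card + 1) + 1 + S) + 4) hMc
    omega
  · set f : ℕ → ℕ → ℕ := fun d m => if IsSquare (d * m) then Nat.sqrt (d * m) else 0 with hf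
    have hmain : ∀ L : Tr, size L ≤ S → Al (Cl R) L →
        (∀ m ∈ M, ((tl L).map fun d => f d m).sum ≤ 2 ^ (2 * S)) ∧
        (rv L = ∑ m ∈ M, ((((tl L).map fun d => f d m).sum : ℕ) : ℝ) * (√(m : ℝ))⁻¹) ∧
        vl (sumL tf L (encT W M.toList)) = ∑ m ∈ M, ((tl L).map fun d => f d m).sum * W m := by
      intro L hL hcl
      have hlt : ∀ d ∈ tl L, d < 2 ^ S := fun d hd =>
        (tl_lt L d hd).trans_le (Nat.pow_le_pow_right (by norm_num) hL)
      have hlen : (tl L).length ≤ S := (length_tl L).trans hL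
      refine ⟨?_, ?_, ?_⟩
      · intro m hm
        have h1 : ∀ x ∈ (tl L).map (fun d => f d m), x ≤ 2 ^ S := by
          intro x hx
          rw [List.mem_map] at hx
          obtain ⟨d, hd, rfl⟩ := hx
          rw [hf]
          beta_reduce
          split_ifs
          · have h2 : d * m ≤ 2 ^ S * 2 ^ S := Nat.mul_le_mul (hlt d hd).le (cls_lt m hm).le
            calc Nat.sqrt (d * m) ≤ Nat.sqrt (2 ^ S * 2 ^ S) := Nat.sqrt_le_sqrt h2
              _ = 2 ^ S := Nat.sqrt_eq _
          · positivity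
        have h2 := List.sum_le_card_nsmul _ _ h1
        rw [List.length_map, smul_eq_mul] at h2
        calc ((tl L).map fun d => f d m).sum ≤ (tl L).length * 2 ^ S := h2
          _ ≤ 2 ^ S * 2 ^ S := Nat.mul_le_mul_right _ (hlen.trans Nat.lt_two_pow_self.le)
          _ = 2 ^ (2 * S) := by rw [← pow_add]; ring_nf
      · rw [rv_tl]
        have key : ∀ L' : List ℕ, (∀ d ∈ L', d ∈ tl L) → (L'.map fun a : ℕ => √(a : ℝ)).sum =
            ∑ m ∈ M, (((L'.map fun d => f d m).sum : ℕ) : ℝ) * (√(m : ℝ))⁻¹ := by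
          intro L'
          induction L' with
          | nil => simp
          | cons d L' ih =>
            intro hL'
            rw [List.map_cons, List.sum_cons, ih fun d' hd' => hL' d' (List.mem_cons_of_mem _ hd')]
            simp only [List.map_cons, List.sum_cons, Nat.cast_add, add_mul, Finset.sum_add_distrib]
            congr 1
            have hd := hL' d List.mem_cons_self
            rcases Nat.eq_zero_or_pos d with h0 | h0
            · subst h0
              simp [hf]
            · exact sqrt_sum (fun m hm => cls_sqf m hm) (cls_mem (by omega) (hlt d hd) (Al_tl hcl d hd))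
        exact key (tl L) fun d hd => hd
      · rw [vl_tab]
        have e : ((tl L).map fun d => (M.toList.map fun m =>
            if IsSquare (d * m) then Nat.sqrt (d * m) * W m else 0).sum).sum =
            ((tl L).map fun d => (M.toList.map fun m => f d m * W m).sum).sum := by
          congr 1
          refine List.map_congr_left fun d _ => ?_
          congr 1
          refine List.map_congr_left fun m _ => ?_
          rw [hf]
          beta_reduce
          split_ifs <;> simp
        rw [e, swap]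
    obtain ⟨a1, a2, a3⟩ := hmain (fst F) ((size_fst_le F).trans hF) h1
    obtain ⟨b1, b2, b3⟩ := hmain (snd F) ((size_snd_le F).trans hF) h2
    have h3 := hspec _ _ a1 b1
    rw [← a2, ← b2, ← a3, ← b3] at h3
    rw [fv, sub_nonpos, h3, lt0]
    by_cases h4 : ltb (sumL tf (snd F) (encT W M.toList)) (sumL tf (fst F) (encT W M.toList)) = true
    · rw [if_pos h4]
      have h5 := (ltb_iff _ _).1 h4
      constructor
      · intro h; exact absurd rfl h
      · intro h; exact absurd h (not_le.2 h5)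
    · rw [if_neg h4]
      have h5 : ¬ _ := fun h => h4 ((ltb_iff _ _).2 h)
      constructor
      · intro _; exact not_lt.1 h5
      · intro _; simp [bit]

end Pool.Agent.H84.PP
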