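import Mathlib

/-!
MP_3b0ce5_lc, nonuniform polynomial time: integer weights of polynomial length for a linear form with real
coefficients (Muroga).
-/

set_option autoImplicit false
set_option linter.unusedSectionVars false

namespace Pool.Agent.H84.PP

open Finset

variable {ι : Type} [Fintype ι] [DecidableEq ι]

/-- the scalar product of an integer vector and a real vector -/
noncomputable def ip (c : ι → ℤ) (w : ι → ℝ) : ℝ := ∑ i, (c i : ℝ) * w i

theorem ip_add (c : ι → ℤ) (w u : ι → ℝ) (t : ℝ) : ip c (w + t • u) = ip c w + t * ip c u := by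
  unfold ip
  rw [Finset.mul_sum, ← Finset.sum_add_distrib]
  refine Finset.sum_congr rfl fun i _ => ?_
  simp only [Pi.add_apply, Pi.smul_apply, smul_eq_mul]
  ring

theorem ip_smul (c : ι → ℤ) (w : ι → ℝ) (t : ℝ) : ip c (t • w) = t * ip c w := by
  unfold ip
  rw [Finset.mul_sum]
  refine Finset.sum_congr rfl fun i _ => ?_
  simp only [Pi.smul_apply, smul_eq_mul]
  ring

theorem ip_neg (c : ι → ℤ) (w : ι → ℝ) : ip (-c) w = - ip c w := by
  unfold ip
  rw [← Finset.sum_neg_distrib]
  refine Finset.sum_congr rfl fun i _ => ?_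
  simp

/-- the box -/
noncomputable def bx (ι : Type) [Fintype ι] [DecidableEq ι] (C : ℕ) : Finset (ι → ℤ) :=
  Fintype.piFinset fun _ => Finset.Icc (-(C : ℤ)) C

theorem mem_bx {C : ℕ} {c : ι → ℤ} : c ∈ bx ι C ↔ ∀ i, |c i| ≤ C := by
  unfold bx
  rw [Fintype.mem_piFinset]
  refine forall_congr' fun i => ?_
  rw [Finset.mem_Icc, abs_le]

/-- the admissible weights -/
def Adm (v : ι → ℝ) (C : ℕ) (w : ι → ℝ) : Prop :=
  ∀ c ∈ bx ι C, (ip c v = 0 → ip c w = 0) ∧ (0 < ip c v → 1 ≤ ip c w)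

/-- the tight constraints -/
def tight (v : ι → ℝ) (C : ℕ) (w : ι → ℝ) : Set (ι → ℝ) :=
  {x | ∃ c ∈ bx ι C, x = (fun i => (c i : ℝ)) ∧ (ip c v = 0 ∨ (0 < ip c v ∧ ip c w = 1))}

theorem adm_exists (v : ι → ℝ) (C : ℕ) : ∃ w, Adm v C w := by
  classical
  refine ⟨(∑ c ∈ (bx ι C).filter (fun c => 0 < ip c v), (ip c v)⁻¹) • v, fun c hc => ⟨fun h => ?_, fun h => ?_⟩⟩
  · rw [ip_smul, h, mul_zero]
  · rw [ip_smul]
    have h1 : (ip c v)⁻¹ ≤ ∑ c ∈ (bx ι C).filter (fun c => 0 < ip c v), (ip c v)⁻¹ :=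
      Finset.single_le_sum (f := fun c => (ip c v)⁻¹)
        (fun c hc => inv_nonneg.2 (Finset.mem_filter.1 hc).2.le) (Finset.mem_filter.2 ⟨hc, h⟩)
    calc (1 : ℝ) = (ip c v)⁻¹ * ip c v := (inv_mul_cancel₀ h.ne').symm
      _ ≤ _ := mul_le_mul_of_nonneg_right h1 h.le

/-- a direction orthogonal to a proper subspace -/
theorem exists_orth {V : Submodule ℝ (ι → ℝ)} (hV : V ≠ ⊤) :
    ∃ u : ι → ℝ, u ≠ 0 ∧ ∀ x ∈ V, ∑ i, x i * u i = 0 := by
  obtain ⟨f, hf0, hf⟩ := Submodule.exists_le_ker_of_lt_top V (lt_top_iff_ne_top.2 hV)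
  refine ⟨fun i => f (Pi.single i 1), ?_, fun x hx => ?_⟩
  · intro h
    apply hf0
    apply LinearMap.pi_ext'
    intro i
    ext
    have := congrFun h i
    simpa using this
  · have h1 : f x = 0 := hf hx
    rw [LinearMap.pi_apply_eq_sum_univ f x] at h1
    have e : ∀ i : ι, (fun j => if i = j then (1 : ℝ) else 0) = Pi.single i 1 := by
      intro i
      ext j
      simp [Pi.single_apply, eq_comm]
    simpa [smul_eq_mul, e] using h1

/-- a best admissible weight -/
theorem adm_best (v : ι → ℝ) (hv : ∀ i, 0 < v i) {C : ℕ} (hC : 1 ≤ C) :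
    ∃ w, Adm v C w ∧ Submodule.span ℝ (tight v C w) = ⊤ := by
  classical
  have hbd : ∀ w, Module.finrank ℝ (Submodule.span ℝ (tight v C w)) ≤ Fintype.card ι := by
    intro w
    have := Submodule.finrank_le (Submodule.span ℝ (tight v C w))
    simpa using this
  -- a maximal value
  have hmax : ∃ w, Adm v C w ∧ ∀ w', Adm v C w' → Module.finrank ℝ (Submodule.span ℝ (tight v C w')) ≤
      Module.finrank ℝ (Submodule.span ℝ (tight v C w)) := by
    by_contra hcon
    push Not at hcon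
    have key : ∀ n : ℕ, ∃ w, Adm v C w ∧ n ≤ Module.finrank ℝ (Submodule.span ℝ (tight v C w)) := by
      intro n
      induction n with
      | zero =>
        obtain ⟨w, hw⟩ := adm_exists v C
        exact ⟨w, hw, Nat.zero_le _⟩
      | succ n ih =>
        obtain ⟨w, hw, hn⟩ := ih
        obtain ⟨w', hw', hlt⟩ := hcon w hw
        exact ⟨w', hw', by omega⟩
    obtain ⟨w, -, hw⟩ := key (Fintype.card ι + 1)
    have := hbd w
    omega
  obtain ⟨w, hw, hmx⟩ := hmax
  refine ⟨w, hw, ?_⟩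
  by_contra hne
  obtain ⟨u, hu0, hu⟩ := exists_orth hne
  have hu' : ∀ c ∈ bx ι C, (ip c v = 0 ∨ (0 < ip c v ∧ ip c w = 1)) → ip c u = 0 := by
    intro c hc h
    exact hu _ (Submodule.subset_span ⟨c, hc, rfl, h⟩)
  obtain ⟨i, hi⟩ : ∃ i, u i ≠ 0 := by
    by_contra h
    push Not at h
    exact hu0 (funext h)
  have hei : ∀ z : ι → ℝ, ip (Pi.single i 1 : ι → ℤ) z = z i := by
    intro z
    unfold ip
    rw [Finset.sum_eq_single i]
    · simp
    · intro j _ hj
      simp [Pi.single_eq_of_ne hj]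
    · simp
  have hebx : (Pi.single i 1 : ι → ℤ) ∈ bx ι C := by
    rw [mem_bx]
    intro j
    by_cases hj : j = i
    · subst hj
      simp
      exact_mod_cast hC
    · simp [Pi.single_eq_of_ne hj]
  -- choose the sign of the direction
  obtain ⟨u, hu', hi⟩ : ∃ u : ι → ℝ, (∀ c ∈ bx ι C, (ip c v = 0 ∨ (0 < ip c v ∧ ip c w = 1)) → ip c u = 0) ∧
      u i < 0 := by
    rcases lt_or_gt_of_ne hi with h | h
    · exact ⟨u, hu', h⟩
    · refine ⟨(-1 : ℝ) • u, fun c hc hcc => ?_, ?_⟩
      · rw [ip_smul, hu' c hc hcc, mul_zero]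
      · simp
        exact h
  set Sx : Finset (ι → ℤ) := (bx ι C).filter fun c => 0 < ip c v ∧ ip c u < 0 with hSx
  have hne' : Sx.Nonempty := ⟨Pi.single i 1, by
    rw [hSx, Finset.mem_filter, hei, hei]
    exact ⟨hebx, hv i, hi⟩⟩
  obtain ⟨c1, hc1, hmin⟩ := Finset.exists_min_image Sx (fun c => (ip c w - 1) / (- ip c u)) hne'
  rw [hSx, Finset.mem_filter] at hc1
  obtain ⟨hc1b, hc1v, hc1u⟩ := hc1
  set t : ℝ := (ip c1 w - 1) / (- ip c1 u) with ht
  have ht0 : 0 ≤ t := by
    apply div_nonneg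
    · have := (hw c1 hc1b).2 hc1v
      linarith
    · linarith
  have hw' : Adm v C (w + t • u) := by
    intro c hc
    refine ⟨fun h => ?_, fun h => ?_⟩
    · rw [ip_add, (hw c hc).1 h, hu' c hc (Or.inl h), mul_zero, add_zero]
    · rw [ip_add]
      have h1 := (hw c hc).2 h
      by_cases hcu : 0 ≤ ip c u
      · have := mul_nonneg ht0 hcu
        linarith
      · push Not at hcu
        have h2 := hmin c (by rw [hSx, Finset.mem_filter]; exact ⟨hc, h, hcu⟩)
        have h3 : t * (- ip c u) ≤ ip c w - 1 := by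
          rw [← le_div_iff₀ (by linarith)]
          exact h2
        linarith
  have hc1' : ip c1 (w + t • u) = 1 := by
    rw [ip_add, ht]
    have h2 : ip c1 u ≠ 0 := hc1u.ne
    field_simp
    ring
  have hsub : tight v C w ⊆ tight v C (w + t • u) := by
    rintro x ⟨c, hc, hx, h⟩
    refine ⟨c, hc, hx, ?_⟩
    rcases h with h | h
    · exact Or.inl h
    · refine Or.inr ⟨h.1, ?_⟩
      rw [ip_add, h.2, hu' c hc (Or.inr h), mul_zero, add_zero]
  have hle := Submodule.span_mono (R := ℝ) hsub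
  have hin : (fun j => (c1 j : ℝ)) ∈ Submodule.span ℝ (tight v C (w + t • u)) :=
    Submodule.subset_span ⟨c1, hc1b, rfl, Or.inr ⟨hc1v, hc1'⟩⟩
  have hnin : (fun j => (c1 j : ℝ)) ∉ Submodule.span ℝ (tight v C w) := by
    intro h
    have key : ∀ x ∈ Submodule.span ℝ (tight v C w), ∑ j, x j * u j = 0 := by
      intro x hx
      induction hx using Submodule.span_induction with
      | mem x hx =>
        obtain ⟨c, hc, rfl, h⟩ := hx
        exact hu' c hc h
      | zero => simp
      | add x y _ _ hx hy =>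
        simp only [Pi.add_apply, add_mul, Finset.sum_add_distrib, hx, hy, add_zero]
      | smul a x _ hx =>
        simp only [Pi.smul_apply, smul_eq_mul, mul_assoc, ← Finset.mul_sum, hx, mul_zero]
    have := key _ h
    exact hc1u.ne this
  have hlt : Submodule.span ℝ (tight v C w) < Submodule.span ℝ (tight v C (w + t • u)) :=
    lt_of_le_of_ne hle fun h => hnin (by rw [h]; exact hin)
  have h1 := Submodule.finrank_lt_finrank_of_lt hlt
  have h2 := hmx _ hw'
  omega

/-- integer weights -/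
theorem thr (v : ι → ℝ) (hv : ∀ i, 0 < v i) {C : ℕ} (hC : 1 ≤ C) :
    ∃ W : ι → ℤ, (∀ i, |W i| ≤ (Fintype.card ι).factorial * (C : ℤ) ^ Fintype.card ι) ∧
      ∀ c : ι → ℤ, (∀ i, |c i| ≤ C) → (0 ≤ ∑ i, (c i : ℝ) * v i ↔ 0 ≤ ∑ i, c i * W i) := by
  classical
  obtain ⟨w, hw, hspan⟩ := adm_best v hv hC
  obtain ⟨b, hb, hbspan, hbli⟩ := exists_linearIndependent ℝ (tight v C w)
  rw [hspan] at hbspan
  let B : Module.Basis b ℝ (ι → ℝ) := Module.Basis.mk hbli (by rw [Subtype.range_coe]; exact hbspan.ge)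
  have : Finite b := Module.Finite.finite_basis B
  have : Fintype b := Fintype.ofFinite b
  have hcard : Fintype.card b = Fintype.card ι := by
    have h1 := Module.finrank_eq_card_basis B
    rw [Module.finrank_pi] at h1
    exact h1.symm
  let e : ι ≃ b := Fintype.equivOfCardEq hcard.symm
  have hch : ∀ i : ι, ∃ c ∈ bx ι C, ((e i : b) : ι → ℝ) = (fun j => (c j : ℝ)) ∧
      (ip c v = 0 ∨ (0 < ip c v ∧ ip c w = 1)) := fun i => hb (e i).2
  choose c hcb hce hct using hch
  let A : Matrix ι ι ℤ := Matrix.of fun i j => c i j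
  let β : ι → ℤ := fun i => if ip (c i) v = 0 then 0 else 1
  have hAw : (A.map (Int.cast : ℤ → ℝ)).mulVec w = fun i => (β i : ℝ) := by
    ext i
    have h1 : (A.map (Int.cast : ℤ → ℝ)).mulVec w i = ip (c i) w := by
      simp [Matrix.mulVec, dotProduct, A, ip]
    rw [h1]
    by_cases h : ip (c i) v = 0
    · rw [((hw _ (hcb i)).1 h)]
      simp [β, h]
    · rcases hct i with h2 | h2
      · exact absurd h2 h
      · rw [h2.2]
        simp [β, h]
  have hAli : LinearIndependent ℝ (fun i => (A.map (Int.cast : ℤ → ℝ)) i) := by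
    have h1 : (fun i => (A.map (Int.cast : ℤ → ℝ)) i) = (fun x : b => (x : ι → ℝ)) ∘ e := by
      ext i j
      simp only [Function.comp, hce i]
      rfl
    rw [h1]
    exact hbli.comp _ e.injective
  have hunit : IsUnit (A.map (Int.cast : ℤ → ℝ)) := by
    rw [← Matrix.linearIndependent_rows_iff_isUnit]
    exact hAli
  have hdetR : (A.map (Int.cast : ℤ → ℝ)).det = ((A.det : ℤ) : ℝ) := by
    have := (RingHom.map_det (Int.castRingHom ℝ) A)
    simpa using this.symm
  have hdet : A.det ≠ 0 := by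
    intro h
    have h1 := (Matrix.isUnit_iff_isUnit_det _).1 hunit
    rw [hdetR, h, Int.cast_zero] at h1
    exact not_isUnit_zero h1
  let W0 : ι → ℤ := A.cramer β
  have hW0 : ∀ i, (W0 i : ℝ) = (A.det : ℝ) * w i := by
    have h1 : (A.map (Int.cast : ℤ → ℝ)).mulVec (fun i => (W0 i : ℝ)) =
        (A.map (Int.cast : ℤ → ℝ)).mulVec ((A.det : ℝ) • w) := by
      rw [Matrix.mulVec_smul, hAw]
      have h2 := Matrix.mulVec_cramer A β
      ext i
      have h3 := congrFun h2 i
      have h4 : ((A.mulVec W0 i : ℤ) : ℝ) = ((A.det • β) i : ℤ) := by exact_mod_cast congrArg (Int.cast : ℤ → ℝ) h3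
      simp only [Pi.smul_apply, smul_eq_mul]
      simp only [Pi.smul_apply, smul_eq_mul, Int.cast_mul] at h4
      rw [← h4]
      simp [Matrix.mulVec, dotProduct]
    have h2 := (Matrix.mulVec_injective_iff_isUnit.2 hunit) h1
    intro i
    have := congrFun h2 i
    simpa using this
  refine ⟨fun i => A.det.sign * W0 i, fun i => ?_, fun x hx => ?_⟩
  · rw [abs_mul]
    have h1 : |A.det.sign| ≤ 1 := by
      rcases Int.sign_trichotomy A.det with h | h | h <;> rw [h] <;> norm_num
    have h2 : |W0 i| ≤ (Fintype.card ι).factorial * (C : ℤ) ^ Fintype.card ι := by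
      have h3 : W0 i = (A.updateCol i β).det := Matrix.cramer_apply A β i
      rw [h3]
      have h4 := Matrix.det_le (A := A.updateCol i β) (abv := AbsoluteValue.abs) (x := (C : ℤ)) (by
        intro j k
        have hC' : (1 : ℤ) ≤ C := by exact_mod_cast hC
        rw [Matrix.updateCol_apply]
        split_ifs
        · simp only [β]
          split_ifs
          · simp
          · simpa using hC'
        · exact (mem_bx.1 (hcb j)) k)
      simpa [nsmul_eq_mul] using h4
    calc |A.det.sign| * |W0 i| ≤ 1 * |W0 i| := mul_le_mul_of_nonneg_right h1 (abs_nonneg _)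
      _ ≤ _ := by rw [one_mul]; exact h2
  · have hxb : x ∈ bx ι C := mem_bx.2 hx
    have hxb' : -x ∈ bx ι C := mem_bx.2 (fun i => by rw [Pi.neg_apply, abs_neg]; exact hx i)
    have e1 : ((∑ i, x i * (A.det.sign * W0 i) : ℤ) : ℝ) = |(A.det : ℝ)| * ip x w := by
      simp only [Int.cast_sum, Int.cast_mul]
      unfold ip
      rw [Finset.mul_sum]
      refine Finset.sum_congr rfl fun i _ => ?_
      rw [hW0]
      have h5 : ((A.det.sign : ℤ) : ℝ) * (A.det : ℝ) = |(A.det : ℝ)| := by
        have := Int.sign_mul_self_eq_abs A.det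
        exact_mod_cast congrArg (Int.cast : ℤ → ℝ) this
      rw [← h5]
      ring
    have hpos : (0 : ℝ) < |(A.det : ℝ)| := abs_pos.2 (by exact_mod_cast hdet)
    have e2 : (0 ≤ ∑ i, x i * (A.det.sign * W0 i)) ↔ 0 ≤ ip x w := by
      have e3 : (0 ≤ ∑ i, x i * (A.det.sign * W0 i)) ↔
          (0 : ℝ) ≤ ((∑ i, x i * (A.det.sign * W0 i) : ℤ) : ℝ) := by
        norm_cast
      rw [e3, e1]
      exact mul_nonneg_iff_of_pos_left hpos
    rw [e2]
    change 0 ≤ ip x v ↔ _
    rcases lt_trichotomy (ip x v) 0 with h | h | h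
    · have h6 := (hw _ hxb').2 (by rw [ip_neg]; linarith)
      rw [ip_neg] at h6
      constructor <;> intro h7 <;> linarith
    · rw [h, (hw _ hxb).1 h]
    · have h6 := (hw _ hxb).2 h
      constructor <;> intro h7 <;> linarith

end Pool.Agent.H84.PP
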