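import Pool.Agent.H84.PP.Mk
import Pool.Agent.H84.PP.Tab

/-!
MP_3b0ce5_lc, nonuniform polynomial time for polynomially many square classes and boundedly many
arbitrary further classes.
-/

set_option autoImplicit false

namespace Pool.Agent.H84.PP

open Pool.Agent.H92.SR Pool.Agent.H92.SR.Tr
open scoped Pointwise

theorem mk_eta (j : ℕ) (F l : Tr) : node (fst (mk j F l)) (snd (mk j F l)) = mk j F l := by
  cases j <;> rfl

theorem Al_encL {Q : ℕ → Prop} {L : List ℕ} (h : ∀ d ∈ L, Q d) : Al Q (encL L) := by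
  induction L with
  | nil => trivial
  | cons d L ih =>
    refine ⟨?_, ih fun d' hd' => h d' (List.mem_cons_of_mem _ hd')⟩
    rw [vl_encN]
    exact h d List.mem_cons_self

theorem rv_encL (L : List ℕ) : rv (encL L) = (L.map fun a : ℕ => √(a : ℝ)).sum := by
  induction L with
  | nil => rfl
  | cons d L ih => rw [encL, rv, vl_encN, ih, List.map_cons, List.sum_cons]

/-- the tower element of an instance, on `node Rt instance` -/
def mm (t : ℕ) (w : Tr) : Tr :=
  mk t (node (inA (fst w) (fst (snd w))) (node (mul (snd (snd w)) (snd (snd w))) leaf))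
    (outA (fst w) (fst (snd w)))

theorem mm' (t : ℕ) : FP (mm t) := by
  have hR : FP fun w => fst w := FP.fst' FP.id'
  have hl : FP fun w => fst (snd w) := FP.fst' (FP.snd' FP.id')
  have hk : FP fun w => snd (snd w) := FP.snd' (FP.snd' FP.id')
  exact mk' t (FP.node' (inA' hR hl) (FP.node' (mul' hk hk) FP.leaf')) (outA' hR hl)

theorem size_encL (l : List ℕ) (B : ℕ) (h : ∀ m ∈ l, Nat.size m ≤ B) :
    size (encL l) ≤ l.length * (4 * B + 2) + 1 := by
  induction l with
  | nil => simp [encL, size]
  | cons m l ih =>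
    have h1 := ih fun m' hm' => h m' (List.mem_cons_of_mem _ hm')
    have h2 := h m List.mem_cons_self
    have h3 := size_encN m
    simp only [encL, size, List.length_cons]
    have e : (l.length + 1) * (4 * B + 2) = l.length * (4 * B + 2) + (4 * B + 2) := by ring
    omega

open Classical in
theorem main2 (t : ℕ) : ∃ c : Prog, ∀ P : Polynomial ℕ, ∃ q : Polynomial ℕ, ∀ (s : ℕ) (R : Finset ℕ),
    R.card ≤ P.eval s → ∃ α : Tr, size α ≤ q.eval s ∧ ∀ (L : List ℕ) (k : ℕ), bsz L k ≤ s →
      (∃ E : Finset ℕ, E.card ≤ t ∧ ∀ d ∈ L, ∃ a ∈ R ∪ E, a ≠ 0 ∧ IsSquare (d * a)) →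
        ∃ τ ≤ q.eval s, Eval c (node α (encI L k)) (bit (decide ((L.map fun a : ℕ => √(a : ℝ)).sum ≤ k))) τ := by
  obtain ⟨c, q0, hq⟩ := ans2' t
  obtain ⟨B, hB⟩ := le0_spec t
  obtain ⟨p, hp⟩ := (mm' t).size_bound
  refine ⟨c, fun P => ?_⟩
  set N : Polynomial ℕ := (P + 1) * (4 * (Polynomial.X + 1) + 2) + 8 * Polynomial.X + 10 with hN
  set SS : Polynomial ℕ := B.comp (p.comp N) with hSS
  set C : Polynomial ℕ := (P + 1) ^ 2 ^ t with hC
  set A : Polynomial ℕ := C * (8 * ((C + 1) ^ 2 + 2 * SS * (C + 1) + 1 + SS) + 4) + 1 with hA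
  refine ⟨q0.comp (A + 2 * N) + A + N, fun s R hR => ?_⟩
  set R' : Finset ℕ := insert 1 (cls s R) with hR'
  have h1R : 1 ∈ R' := Finset.mem_insert_self _ _
  have hR'c : R'.card ≤ P.eval s + 1 :=
    (Finset.card_insert_le _ _).trans (by have := cls_card s R; omega)
  have hR'0 : ∀ m ∈ R', m ≠ 0 := by
    intro m hm
    rcases Finset.mem_insert.1 hm with rfl | hm
    · exact one_ne_zero
    · exact (cls_sqf m hm).ne_zero
  have hR's : ∀ m ∈ R', Nat.size m ≤ s + 1 := by
    intro m hm
    rcases Finset.mem_insert.1 hm with rfl | hm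
    · simp
    · have := Nat.size_le.2 (cls_lt m hm)
      omega
  set S := SS.eval s with hS
  obtain ⟨tab, htab, htab2⟩ := table S (R' ^ 2 ^ t)
  have hMc : (R' ^ 2 ^ t).card ≤ C.eval s := by
    rw [hC, Polynomial.eval_pow, Polynomial.eval_add, Polynomial.eval_one]
    exact Finset.card_pow_le.trans (Nat.pow_le_pow_left hR'c _)
  have htab3 : size tab ≤ A.eval s := by
    refine htab.trans ?_
    rw [hA]
    simp only [Polynomial.eval_add, Polynomial.eval_mul, Polynomial.eval_pow, Polynomial.eval_one,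
      Polynomial.eval_ofNat]
    rw [← hS]
    gcongr
  have hRt : size (encL R'.toList) ≤ (P.eval s + 1) * (4 * (s + 1) + 2) + 1 := by
    have h1 := size_encL R'.toList (s + 1) (fun m hm => hR's m (Finset.mem_toList.1 hm))
    rw [Finset.length_toList] at h1
    have h2 := Nat.mul_le_mul_right (4 * (s + 1) + 2) hR'c
    omega
  have hNe : N.eval s = (P.eval s + 1) * (4 * (s + 1) + 2) + 8 * s + 10 := by
    rw [hN]
    simp only [Polynomial.eval_add, Polynomial.eval_mul, Polynomial.eval_X, Polynomial.eval_one,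
      Polynomial.eval_ofNat]
  refine ⟨node (encL R'.toList) tab, ?_, fun L k hs hE => ?_⟩
  · simp only [size, Polynomial.eval_add]
    omega
  · obtain ⟨E, hEt, hE⟩ := hE
    have hlt : ∀ d ∈ L, d < 2 ^ s := by
      intro d hd
      have h1 : Nat.size d ≤ (L.map Nat.size).sum := List.single_le_sum (by simp) _ (List.mem_map_of_mem hd)
      apply Nat.size_le.1
      unfold bsz at hs
      omega
    have hG : Al (fun d => d < 2 ^ s ∧ ∃ a ∈ R ∪ E, a ≠ 0 ∧ IsSquare (d * a)) (encL L) :=
      Al_encL fun d hd => ⟨hlt d hd, hE d hd⟩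
    have hin : Al (Cl R') (inA (encL R'.toList) (encL L)) := by
      refine Al_mono (fun d hd => ?_) (Al_inA (rl := R'.toList) hG)
      obtain ⟨-, m, hm, hsq⟩ := hd
      rw [Finset.mem_toList] at hm
      exact ⟨m, hm, hR'0 m hm, by rwa [mul_comm]⟩
    have hout := Al_outA (rl := R'.toList) hG
    have hout0 : Al (fun d => d ≠ 0) (outA (encL R'.toList) (encL L)) := by
      refine Al_mono (fun d hd => ?_) hout
      rintro rfl
      exact hd.2 1 (Finset.mem_toList.2 h1R) ⟨0, by simp⟩
    have houtE : Al (Cl E) (outA (encL R'.toList) (encL L)) := by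
      refine Al_mono (fun d hd => ?_) hout
      obtain ⟨⟨hd1, a, ha, ha0, hsq⟩, hd2⟩ := hd
      rcases Finset.mem_union.1 ha with ha | ha
      · exfalso
        have hd0 : d ≠ 0 := by
          rintro rfl
          exact hd2 1 (Finset.mem_toList.2 h1R) ⟨0, by simp⟩
        obtain ⟨m, hm, hm2⟩ := cls_mem hd0 hd1 ⟨a, ha, ha0, hsq⟩
        exact hd2 m (Finset.mem_toList.2 (Finset.mem_insert_of_mem hm)) (by rwa [mul_comm])
      · exact ⟨a, ha, ha0, hsq⟩
    have hsqQ : ∀ d, IsSquare d → Cl R' d := fun d hd => ⟨1, h1R, one_ne_zero, by rwa [mul_one]⟩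
    set F := node (inA (encL R'.toList) (encL L)) (node (mul (encN k) (encN k)) leaf) with hF
    have hFA : fAl (Cl R') F := by
      refine ⟨hin, ?_, trivial⟩
      rw [vl_mul, vl_encN]
      exact hsqQ _ ⟨k, rfl⟩
    have hFv : fv F = rv (inA (encL R'.toList) (encL L)) - k := by
      rw [hF, fv]
      simp only [FP.fst_nd, FP.snd_nd, rv]
      rw [vl_mul, vl_encN, Nat.cast_mul, Real.sqrt_mul_self (Nat.cast_nonneg _), add_zero]
    set out := outA (encL R'.toList) (encL L) with hout'
    obtain ⟨m1, m2⟩ := mk_spec t F out E hout0 hEt houtE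
    have m3 := tAl_mk hsqQ t (F := F) (l := out) hFA
    have hinp : size (node (encL R'.toList) (encI L k)) ≤ N.eval s := by
      have h2 := size_encI L k
      have h3 : 8 * bsz L k ≤ 8 * s := by omega
      rw [hNe]
      simp only [size]
      omega
    have hmm : mm t (node (encL R'.toList) (encI L k)) = mk t F out := rfl
    have hsz : B.eval (size (node (fst (mk t F out)) (snd (mk t F out)))) ≤ S := by
      rw [mk_eta, ← hmm, hS, hSS, Polynomial.eval_comp, Polynomial.eval_comp]
      exact poly_mono B ((hp _).trans (poly_mono p hinp))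
    have hle := hB R' tab S h1R htab2 _ _ m2 m3 hsz
    rw [m1, hFv, show rv (inA (encL R'.toList) (encL L)) - (k : ℝ) + rv out =
      (rv (inA (encL R'.toList) (encL L)) + rv out) - k by ring, hout', rv_io, rv_encL, sub_nonpos] at hle
    obtain ⟨τ, hτ, he⟩ := hq (node (node (encL R'.toList) tab) (encI L k))
    have hans : ans2 t (node (node (encL R'.toList) tab) (encI L k)) =
        bit (decide ((L.map fun a : ℕ => √(a : ℝ)).sum ≤ k)) := by
      have e : ans2 t (node (node (encL R'.toList) tab) (encI L k)) =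
          if le0 t tab (fst (mk t F out)) (snd (mk t F out)) = leaf then bit false else bit true := rfl
      rw [e]
      by_cases h : le0 t tab (fst (mk t F out)) (snd (mk t F out)) = leaf
      · rw [if_pos h, decide_eq_false]
        intro h2
        exact (hle.2 h2) h
      · rw [if_neg h, decide_eq_true (hle.1 h)]
    rw [hans] at he
    refine ⟨τ, hτ.trans ?_, he⟩
    rw [Polynomial.eval_add, Polynomial.eval_add, Polynomial.eval_comp]
    have h1 : size (node (node (encL R'.toList) tab) (encI L k)) ≤ (A + 2 * N).eval s := by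
      simp only [Polynomial.eval_add, Polynomial.eval_mul, Polynomial.eval_ofNat]
      simp only [size] at hinp ⊢
      omega
    have h2 := poly_mono q0 h1
    omega

end Pool.Agent.H84.PP
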