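import Pool.Agent.H84.PP.Grp

/-!
MP_3b0ce5_lc, nonuniform polynomial time: radicands in the classes `a * ∏ F`, `a` in a set of
polynomially many numbers which depends on the size only, `F` a subset of a set of at most `t`
numbers which depends on the instance.
-/

set_option autoImplicit false

namespace Pool.Agent.H84.PP

open Pool.Agent.H92.SR Pool.Agent.H92.SR.Tr
open scoped Pointwise

/-- the tower and the element, on `node Rt instance` -/
def mm3 (t : ℕ) (w : Tr) : Tr :=
  node (gn t (fst (snd w)) (fst w))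
    (tadd t (ex t (gn t (fst (snd w)) (fst w)) (fst (snd w)) (fst w))
      (emb t (node leaf (node (mul (snd (snd w)) (snd (snd w))) leaf))))

theorem mm3' (t : ℕ) : FP (mm3 t) := by
  have hR : FP fun w => fst w := FP.fst' FP.id'
  have hl : FP fun w => fst (snd w) := FP.fst' (FP.snd' FP.id')
  have hk : FP fun w => snd (snd w) := FP.snd' (FP.snd' FP.id')
  exact FP.node' (gn' t hl hR) (tadd' t (ex' t (gn' t hl hR) hl hR)
    (emb' t (FP.node' FP.leaf' (FP.node' (mul' hk hk) FP.leaf'))))

/-- the program, on `node (node Rt tab) instance` -/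
def ans3 (t : ℕ) (v : Tr) : Tr :=
  if le0 t (snd (fst v)) (fst (mm3 t (node (fst (fst v)) (snd v)))) (snd (mm3 t (node (fst (fst v)) (snd v)))) = leaf
  then bit false else bit true

theorem ans3' (t : ℕ) : FP (ans3 t) := by
  have hm : FP fun v => mm3 t (node (fst (fst v)) (snd v)) :=
    FP.comp' (mm3' t) (FP.node' (FP.fst' (FP.fst' FP.id')) (FP.snd' FP.id'))
  exact FP.ite' (le0' t (FP.snd' (FP.fst' FP.id')) (FP.fst' hm) (FP.snd' hm)) (FP.const' _) (FP.const' _)

open Classical in
theorem main3 (t : ℕ) : ∃ c : Prog, ∀ P : Polynomial ℕ, ∃ q : Polynomial ℕ, ∀ (s : ℕ) (R : Finset ℕ),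
    R.card ≤ P.eval s → ∃ α : Tr, size α ≤ q.eval s ∧ ∀ (L : List ℕ) (k : ℕ), bsz L k ≤ s →
      (∃ E : Finset ℕ, E.card ≤ t ∧ ∀ d ∈ L, ∃ a ∈ R, ∃ F ⊆ E,
        a * ∏ e ∈ F, e ≠ 0 ∧ IsSquare (d * (a * ∏ e ∈ F, e))) →
        ∃ τ ≤ q.eval s, Eval c (node α (encI L k)) (bit (decide ((L.map fun a : ℕ => √(a : ℝ)).sum ≤ k))) τ := by
  obtain ⟨c, q0, hq⟩ := ans3' t
  obtain ⟨B, hB⟩ := le0_spec t
  obtain ⟨p, hp⟩ := (mm3' t).size_bound
  refine ⟨c, fun P => ?_⟩
  set C : Polynomial ℕ := (P + 1) ^ 2 ^ t with hC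
  set Z : Polynomial ℕ := Polynomial.X * (Polynomial.C t + 1) with hZ
  set N : Polynomial ℕ := (C + 1) * (4 * (Z + 1) + 2) + 8 * Polynomial.X + 10 with hN
  set SS : Polynomial ℕ := B.comp (p.comp N) with hSS
  set D : Polynomial ℕ := C ^ 2 ^ t with hD
  set A : Polynomial ℕ := D * (8 * ((D + 1) ^ 2 + 2 * SS * (D + 1) + 1 + SS) + 4) + 1 with hA
  refine ⟨q0.comp (A + 2 * N) + A + N, fun s R hR => ?_⟩
  set R1 : Finset ℕ := insert 1 (R.filter fun a => a ≠ 0) with hR1
  have h1R1 : 1 ∈ R1 := Finset.mem_insert_self _ _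
  have hR1c : R1.card ≤ P.eval s + 1 :=
    (Finset.card_insert_le _ _).trans (by
      have := Finset.card_filter_le R fun a => a ≠ 0
      omega)
  set Rt : Finset ℕ := R1 ^ 2 ^ t with hRt
  have h1Rt : 1 ∈ Rt := one_mem_pow h1R1 _
  have hRtc : Rt.card ≤ C.eval s := by
    rw [hC, Polynomial.eval_pow, Polynomial.eval_add, Polynomial.eval_one]
    exact Finset.card_pow_le.trans (Nat.pow_le_pow_left hR1c _)
  set s' := s * (t + 1) with hs'
  have hZe : Z.eval s = s' := by
    rw [hZ, Polynomial.eval_mul, Polynomial.eval_add, Polynomial.eval_X, Polynomial.eval_C, Polynomial.eval_one]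
  set S := SS.eval s with hS
  obtain ⟨tab, htab, htab2⟩ := table S (Rt ^ 2 ^ t)
  have hMc : (Rt ^ 2 ^ t).card ≤ D.eval s := by
    rw [hD, Polynomial.eval_pow]
    exact Finset.card_pow_le.trans (Nat.pow_le_pow_left hRtc _)
  have htab3 : size tab ≤ A.eval s := by
    refine htab.trans ?_
    rw [hA]
    simp only [Polynomial.eval_add, Polynomial.eval_mul, Polynomial.eval_pow, Polynomial.eval_one,
      Polynomial.eval_ofNat]
    rw [← hS]
    gcongr
  have hRl : size (encL (rl s' Rt)) ≤ (C.eval s + 1) * (4 * (s' + 1) + 2) + 1 := by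
    have h1 := size_encL (rl s' Rt) (s' + 1) (fun m hm => by
      rw [rl, Finset.mem_toList, Finset.mem_insert] at hm
      rcases hm with rfl | hm
      · simp
      · have := Nat.size_le.2 (cls_lt m hm)
        omega)
    have h2 : (rl s' Rt).length ≤ C.eval s + 1 := by
      rw [rl, Finset.length_toList]
      exact (Finset.card_insert_le _ _).trans (by have := cls_card s' Rt; omega)
    have h3 := Nat.mul_le_mul_right (4 * (s' + 1) + 2) h2
    omega
  have hNe : N.eval s = (C.eval s + 1) * (4 * (s' + 1) + 2) + 8 * s + 10 := by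
    rw [hN]
    simp only [Polynomial.eval_add, Polynomial.eval_mul, Polynomial.eval_X, Polynomial.eval_one,
      Polynomial.eval_ofNat, hZe]
  refine ⟨node (encL (rl s' Rt)) tab, ?_, fun L k hs hE => ?_⟩
  · simp only [size, Polynomial.eval_add]
    omega
  · obtain ⟨E0, hE0t, hE0⟩ := hE
    have hlt : ∀ d ∈ L, d < 2 ^ s := by
      intro d hd
      have h1 : Nat.size d ≤ (L.map Nat.size).sum := List.single_le_sum (by simp) _ (List.mem_map_of_mem hd)
      apply Nat.size_le.1
      unfold bsz at hs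
      omega
    set E := E0.filter fun e => e ≠ 0 with hE
    have hEt : E.card ≤ t := (Finset.card_filter_le _ _).trans hE0t
    have hEn : ∀ e ∈ E, e ≠ 0 := fun e he => (Finset.mem_filter.1 he).2
    set l := encL L with hl
    have hls : Al (fun d => d < 2 ^ s) l := Al_encL hlt
    have hlE : Al (fun d => ∃ F ⊆ E, Cl R1 (d * ∏ e ∈ F, e)) l := by
      refine Al_encL fun d hd => ?_
      obtain ⟨a, ha, F, hF, hne, hsq⟩ := hE0 d hd
      have ha0 : a ≠ 0 := left_ne_zero_of_mul hne
      have hF0 : ∏ e ∈ F, e ≠ 0 := right_ne_zero_of_mul hne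
      refine ⟨F, fun e he => Finset.mem_filter.2 ⟨hF he, Finset.prod_ne_zero_iff.1 hF0 e he⟩, a, ?_, ha0, ?_⟩
      · exact Finset.mem_insert_of_mem (Finset.mem_filter.2 ⟨ha, ha0⟩)
      · rwa [show d * (a * ∏ e ∈ F, e) = d * (∏ e ∈ F, e) * a by ring] at hsq
    obtain ⟨⟨hpos, hgp⟩, hor⟩ := gn_spec (s' := s') h1R1 hRt le_rfl hEn hEt hls hlE t le_rfl
    set es := gn t l (encL (rl s' Rt)) with hes
    have hAll : Al (Gj Rt t es) l := by
      rcases hor with hor | ⟨E', hE'c, -, hor⟩
      · exact hor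
      · have hE'0 : E' = ∅ := Finset.card_eq_zero.1 (by omega)
        subst hE'0
        refine Al_mono (fun d hd => ?_) hor
        obtain ⟨F, hF, hG⟩ := hd
        rw [Finset.subset_empty.1 hF, Finset.prod_empty, mul_one] at hG
        exact hG
    have hb : Al (fun d => d * gp t es < 2 ^ s') l := by
      refine Al_mono (fun d hd => ?_) hls
      calc d * gp t es < 2 ^ s * 2 ^ (s * t) := by
            refine lt_of_le_of_lt (Nat.mul_le_mul_left d hgp) ?_
            exact Nat.mul_lt_mul_of_pos_right hd (by positivity)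
        _ = 2 ^ s' := by rw [← pow_add, hs']; ring_nf
    have hex := tAl_ex h1Rt t hpos (Al_and hAll hb)
    set K := node leaf (node (mul (encN k) (encN k)) leaf) with hK
    have hKA : fAl (Cl Rt) K := by
      refine ⟨trivial, ?_, trivial⟩
      rw [vl_mul, vl_encN]
      exact ⟨1, h1Rt, one_ne_zero, ⟨k, by rw [mul_one]⟩⟩
    have hKv : fv K = - (k : ℝ) := by
      rw [hK, fv]
      simp only [FP.fst_nd, FP.snd_nd, rv]
      rw [vl_mul, vl_encN, Nat.cast_mul, Real.sqrt_mul_self (Nat.cast_nonneg _)]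
      ring
    set x := tadd t (ex t es l (encL (rl s' Rt))) (emb t K) with hx
    have hxA : tAl (Cl Rt) t x := tAl_tadd t hex (tAl_emb t hKA)
    have hxv : tv t es x = (L.map fun a : ℕ => √(a : ℝ)).sum - k := by
      rw [hx, tv_tadd, tv_ex t es l _ hpos, tv_emb, hKv, hl, rv_encL]
      ring
    have hmm : mm3 t (node (encL (rl s' Rt)) (encI L k)) = node es x := rfl
    have hinp : size (node (encL (rl s' Rt)) (encI L k)) ≤ N.eval s := by
      have h2 := size_encI L k
      have h3 : 8 * bsz L k ≤ 8 * s := by omega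
      rw [hNe]
      simp only [size]
      omega
    have hsz : B.eval (size (node es x)) ≤ S := by
      rw [← hmm, hS, hSS, Polynomial.eval_comp, Polynomial.eval_comp]
      exact poly_mono B ((hp _).trans (poly_mono p hinp))
    have hle := hB Rt tab S h1Rt htab2 es x hpos hxA hsz
    rw [hxv, sub_nonpos] at hle
    obtain ⟨τ, hτ, he⟩ := hq (node (node (encL (rl s' Rt)) tab) (encI L k))
    have hans : ans3 t (node (node (encL (rl s' Rt)) tab) (encI L k)) =
        bit (decide ((L.map fun a : ℕ => √(a : ℝ)).sum ≤ k)) := by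
      have e : ans3 t (node (node (encL (rl s' Rt)) tab) (encI L k)) =
          if le0 t tab es x = leaf then bit false else bit true := rfl
      rw [e]
      by_cases h : le0 t tab es x = leaf
      · rw [if_pos h, decide_eq_false]
        intro h2
        exact (hle.2 h2) h
      · rw [if_neg h, decide_eq_true (hle.1 h)]
    rw [hans] at he
    refine ⟨τ, hτ.trans ?_, he⟩
    rw [Polynomial.eval_add, Polynomial.eval_add, Polynomial.eval_comp]
    have h1 : size (node (node (encL (rl s' Rt)) tab) (encI L k)) ≤ (A + 2 * N).eval s := by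
      simp only [Polynomial.eval_add, Polynomial.eval_mul, Polynomial.eval_ofNat]
      simp only [size] at hinp ⊢
      omega
    have h2 := poly_mono q0 h1
    omega

end Pool.Agent.H84.PP
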