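import Pool.Agent.H84.PP.Cat

/-!
MP_3b0ce5_lc: towers over the signed forms and the sign of their elements.
-/

set_option autoImplicit false

namespace Pool.Agent.H84.PP

open Pool.Agent.H92.SR Pool.Agent.H92.SR.Tr
open scoped Pointwise

/-- the value of an element of the tower of height `j` -/
noncomputable def tv : ℕ → Tr → Tr → ℝ
  | 0, _, x => fv x
  | j + 1, es, x => tv j (snd es) (fst x) + tv j (snd es) (snd x) * (√(vl (fst es) : ℝ))⁻¹

def tneg : ℕ → Tr → Tr
  | 0, x => fneg x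
  | j + 1, x => node (tneg j (fst x)) (tneg j (snd x))

def tadd : ℕ → Tr → Tr → Tr
  | 0, x, y => fadd x y
  | j + 1, x, y => node (tadd j (fst x) (fst y)) (tadd j (snd x) (snd y))

def tsc : ℕ → Tr → Tr → Tr
  | 0, c, x => fsc c x
  | j + 1, c, x => node (tsc j c (fst x)) (tsc j c (snd x))

def tmul : ℕ → Tr → Tr → Tr → Tr
  | 0, _, x, y => fmul x y
  | j + 1, es, x, y =>
    node (tadd j (tsc j (mul (fst es) (fst es)) (tmul j (snd es) (fst x) (fst y)))
        (tmul j (snd es) (snd x) (snd y)))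
      (tsc j (mul (fst es) (fst es))
        (tadd j (tmul j (snd es) (fst x) (snd y)) (tmul j (snd es) (snd x) (fst y))))

/-- `e u² - v²`, times a positive constant -/
def nrm (j : ℕ) (es x : Tr) : Tr :=
  tadd j (tsc j (mul (fst es) (fst es)) (tmul j (snd es) (fst x) (fst x)))
    (tneg j (tmul j (snd es) (snd x) (snd x)))

/-- not `leaf` if the value is at most `0` -/
def le0 : ℕ → Tr → Tr → Tr → Tr
  | 0, tab, _, x => lt0 tab x
  | j + 1, tab, es, x =>
    if le0 j tab (snd es) (fst x) = leaf then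
      (if le0 j tab (snd es) (snd x) = leaf then leaf else le0 j tab (snd es) (nrm j es x))
    else
      (if le0 j tab (snd es) (snd x) = leaf then le0 j tab (snd es) (tneg j (nrm j es x)) else bit true)

/-- the scaling constant -/
noncomputable def kk : ℕ → Tr → ℝ
  | 0, _ => 1
  | j + 1, es => (vl (fst es) : ℝ) * kk j (snd es)

def pos : ℕ → Tr → Prop
  | 0, _ => True
  | j + 1, es => vl (fst es) ≠ 0 ∧ pos j (snd es)

def tAl (Q : ℕ → Prop) : ℕ → Tr → Prop
  | 0, x => fAl Q x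
  | j + 1, x => tAl Q j (fst x) ∧ tAl Q j (snd x)

theorem kk_pos {j : ℕ} : ∀ {es : Tr}, pos j es → 0 < kk j es := by
  induction j with
  | zero => exact fun _ => one_pos
  | succ j ih =>
    intro es h
    have h1 : (0 : ℝ) < vl (fst es) := by exact_mod_cast Nat.pos_of_ne_zero h.1
    exact mul_pos h1 (ih h.2)

theorem tneg' (j : ℕ) : ∀ {X : Tr → Tr}, FP X → FP (fun v => tneg j (X v)) := by
  induction j with
  | zero => exact fun hX => fneg' hX
  | succ j ih => exact fun hX => FP.node' (ih (FP.fst' hX)) (ih (FP.snd' hX))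

theorem tadd' (j : ℕ) : ∀ {X Y : Tr → Tr}, FP X → FP Y → FP (fun v => tadd j (X v) (Y v)) := by
  induction j with
  | zero => exact fun hX hY => fadd' hX hY
  | succ j ih => exact fun hX hY => FP.node' (ih (FP.fst' hX) (FP.fst' hY)) (ih (FP.snd' hX) (FP.snd' hY))

theorem tsc' (j : ℕ) : ∀ {X Y : Tr → Tr}, FP X → FP Y → FP (fun v => tsc j (X v) (Y v)) := by
  induction j with
  | zero => exact fun hX hY => fsc' hX hY
  | succ j ih => exact fun hX hY => FP.node' (ih hX (FP.fst' hY)) (ih hX (FP.snd' hY))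

theorem tmul' (j : ℕ) : ∀ {X Y Z : Tr → Tr}, FP X → FP Y → FP Z → FP (fun v => tmul j (X v) (Y v) (Z v)) := by
  induction j with
  | zero => exact fun _ hY hZ => fmul' hY hZ
  | succ j ih =>
    intro X Y Z hX hY hZ
    have e2 := mul' (FP.fst' hX) (FP.fst' hX)
    exact FP.node'
      (tadd' j (tsc' j e2 (ih (FP.snd' hX) (FP.fst' hY) (FP.fst' hZ))) (ih (FP.snd' hX) (FP.snd' hY) (FP.snd' hZ)))
      (tsc' j e2 (tadd' j (ih (FP.snd' hX) (FP.fst' hY) (FP.snd' hZ)) (ih (FP.snd' hX) (FP.snd' hY) (FP.fst' hZ))))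

theorem nrm' (j : ℕ) {X Y : Tr → Tr} (hX : FP X) (hY : FP Y) : FP (fun v => nrm j (X v) (Y v)) :=
  tadd' j (tsc' j (mul' (FP.fst' hX) (FP.fst' hX)) (tmul' j (FP.snd' hX) (FP.fst' hY) (FP.fst' hY)))
    (tneg' j (tmul' j (FP.snd' hX) (FP.snd' hY) (FP.snd' hY)))

theorem lt0' {X Y : Tr → Tr} (hX : FP X) (hY : FP Y) : FP (fun v => lt0 (X v) (Y v)) := by
  have h1 : FP fun v => sumL tf (snd (Y v)) (X v) := sumL' tf' (FP.snd' hY) hX
  have h2 : FP fun v => sumL tf (fst (Y v)) (X v) := sumL' tf' (FP.fst' hY) hX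
  exact FP.iteB (p := fun v => ltb (sumL tf (snd (Y v)) (X v)) (sumL tf (fst (Y v)) (X v)))
    (FP.sc2 gs g3 false (FP.cat' h1 h2) h1 h2) FP.leaf' (FP.const' _)

theorem le0' (j : ℕ) : ∀ {X Y Z : Tr → Tr}, FP X → FP Y → FP Z → FP (fun v => le0 j (X v) (Y v) (Z v)) := by
  induction j with
  | zero => exact fun hX _ hZ => lt0' hX hZ
  | succ j ih =>
    intro X Y Z hX hY hZ
    have hn := nrm' j hY hZ
    exact FP.ite' (ih hX (FP.snd' hY) (FP.fst' hZ))
      (FP.ite' (ih hX (FP.snd' hY) (FP.snd' hZ)) FP.leaf' (ih hX (FP.snd' hY) hn))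
      (FP.ite' (ih hX (FP.snd' hY) (FP.snd' hZ)) (ih hX (FP.snd' hY) (tneg' j hn)) (FP.const' _))

theorem tv_tneg (j : ℕ) : ∀ es x : Tr, tv j es (tneg j x) = - tv j es x := by
  induction j with
  | zero => exact fun es x => fv_fneg x
  | succ j ih =>
    intro es x
    simp only [tv, tneg, fst, snd, ih]
    ring

theorem tv_tadd (j : ℕ) : ∀ es x y : Tr, tv j es (tadd j x y) = tv j es x + tv j es y := by
  induction j with
  | zero => exact fun es x y => fv_fadd x y
  | succ j ih =>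
    intro es x y
    simp only [tv, tadd, fst, snd, ih]
    ring

theorem tv_tsc (j : ℕ) : ∀ es c x : Tr, tv j es (tsc j c x) = √(vl c : ℝ) * tv j es x := by
  induction j with
  | zero => exact fun es c x => fv_fsc c x
  | succ j ih =>
    intro es c x
    simp only [tv, tsc, fst, snd, ih]
    ring

theorem sqrt_ee (e : Tr) : √(vl (mul e e) : ℝ) = vl e := by
  rw [vl_mul, Nat.cast_mul, Real.sqrt_mul_self (Nat.cast_nonneg _)]

theorem tv_tmul (j : ℕ) : ∀ es x y : Tr, pos j es → tv j es (tmul j es x y) = kk j es * (tv j es x * tv j es y) := by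
  induction j with
  | zero => exact fun es x y _ => by simp only [tv, tmul, kk, fv_fmul, one_mul]
  | succ j ih =>
    intro es x y hp
    have h0 : (0 : ℝ) < vl (fst es) := by exact_mod_cast Nat.pos_of_ne_zero hp.1
    have h1 : (√(vl (fst es) : ℝ))⁻¹ * (√(vl (fst es) : ℝ))⁻¹ * (vl (fst es) : ℝ) = 1 := by
      have h2 : √(vl (fst es) : ℝ) * √(vl (fst es) : ℝ) = vl (fst es) := Real.mul_self_sqrt h0.le
      have h3 : √(vl (fst es) : ℝ) ≠ 0 := (Real.sqrt_pos.2 h0).ne'
      rw [← mul_inv, h2, inv_mul_cancel₀ h0.ne']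
    simp only [tv, tmul, FP.fst_nd, FP.snd_nd, kk, tv_tadd, tv_tsc, sqrt_ee, ih _ _ _ hp.2]
    linear_combination (-(kk j (snd es)) * tv j (snd es) (snd x) * tv j (snd es) (snd y)) * h1

theorem tv_nrm (j : ℕ) (es x : Tr) (hp : pos j (snd es)) : tv j (snd es) (nrm j es x) =
    kk j (snd es) * ((vl (fst es) : ℝ) * tv j (snd es) (fst x) ^ 2 - tv j (snd es) (snd x) ^ 2) := by
  rw [nrm, tv_tadd, tv_tneg, tv_tsc, sqrt_ee, tv_tmul j _ _ _ hp, tv_tmul j _ _ _ hp]
  ring

/-- the sign of `u + v / √e` -/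
theorem sgn_iff {u v e : ℝ} (he : 0 < e) : u + v * (√e)⁻¹ ≤ 0 ↔
    (u ≤ 0 ∧ v ≤ 0) ∨ (u ≤ 0 ∧ ¬ v ≤ 0 ∧ 0 ≤ e * u ^ 2 - v ^ 2) ∨ (¬ u ≤ 0 ∧ v ≤ 0 ∧ e * u ^ 2 - v ^ 2 ≤ 0) := by
  have hr : 0 < √e := Real.sqrt_pos.2 he
  have hr2 : √e ^ 2 = e := Real.sq_sqrt he.le
  have h1 : u + v * (√e)⁻¹ ≤ 0 ↔ √e * u + v ≤ 0 := by
    have : √e * u + v = √e * (u + v * (√e)⁻¹) := by field_simp
    rw [this]
    constructor
    · intro h; exact mul_nonpos_of_nonneg_of_nonpos hr.le h
    · intro h; exact nonpos_of_mul_nonpos_right h hr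
  have h2 : e * u ^ 2 - v ^ 2 = (√e * u + v) * (√e * u - v) := by
    linear_combination (-u ^ 2) * hr2
  rw [h1]
  by_cases hu : u ≤ 0
  · have hu' : √e * u ≤ 0 := mul_nonpos_of_nonneg_of_nonpos hr.le hu
    by_cases hv : v ≤ 0
    · constructor
      · intro; exact Or.inl ⟨hu, hv⟩
      · intro; linarith
    · have hv' : 0 < v := not_le.1 hv
      have h3 : √e * u - v < 0 := by linarith
      constructor
      · intro h
        refine Or.inr (Or.inl ⟨hu, hv, ?_⟩)
        rw [h2]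
        exact mul_nonneg_of_nonpos_of_nonpos h h3.le
      · rintro (h | h | h)
        · exact absurd h.2 hv
        · by_contra h4
          rw [not_le] at h4
          have := mul_neg_of_pos_of_neg h4 h3
          rw [← h2] at this
          linarith [h.2.2]
        · exact absurd hu h.1
  · have hu' : 0 < √e * u := mul_pos hr (not_le.1 hu)
    by_cases hv : v ≤ 0
    · have h3 : 0 < √e * u - v := by linarith
      constructor
      · intro h
        refine Or.inr (Or.inr ⟨hu, hv, ?_⟩)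
        rw [h2]
        exact mul_nonpos_of_nonpos_of_nonneg h h3.le
      · rintro (h | h | h)
        · exact absurd h.1 hu
        · exact absurd h.1 hu
        · by_contra h4
          rw [not_le] at h4
          have := mul_pos h4 h3
          rw [← h2] at this
          linarith [h.2.2]
    · constructor
      · intro h
        linarith [not_le.1 hv]
      · rintro (h | h | h)
        · exact absurd h.1 hu
        · exact absurd h.1 hu
        · exact absurd h.2.1 hv

/-! ### the classes -/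

theorem tAl_mono {P Q : ℕ → Prop} (h : ∀ d, P d → Q d) (j : ℕ) : ∀ {x : Tr}, tAl P j x → tAl Q j x := by
  induction j with
  | zero => exact fun hx => ⟨Al_mono h hx.1, Al_mono h hx.2⟩
  | succ j ih => exact fun hx => ⟨ih hx.1, ih hx.2⟩

theorem tAl_tneg {Q : ℕ → Prop} (j : ℕ) : ∀ {x : Tr}, tAl Q j x → tAl Q j (tneg j x) := by
  induction j with
  | zero => exact fun hx => fAl_fneg hx
  | succ j ih => exact fun hx => ⟨ih hx.1, ih hx.2⟩

theorem tAl_tadd {Q : ℕ → Prop} (j : ℕ) : ∀ {x y : Tr}, tAl Q j x → tAl Q j y → tAl Q j (tadd j x y) := by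
  induction j with
  | zero => exact fun hx hy => fAl_fadd hx hy
  | succ j ih => exact fun hx hy => ⟨ih hx.1 hy.1, ih hx.2 hy.2⟩

theorem tAl_tsc {P Q : ℕ → Prop} {c : Tr} (h : ∀ d, P d → Q (d * vl c)) (j : ℕ) :
    ∀ {x : Tr}, tAl P j x → tAl Q j (tsc j c x) := by
  induction j with
  | zero => exact fun hx => fAl_fsc hx h
  | succ j ih => exact fun hx => ⟨ih hx.1, ih hx.2⟩

theorem Cl_mul {R R' : Finset ℕ} {d d' : ℕ} (h : Cl R d) (h' : Cl R' d') : Cl (R * R') (d' * d) := by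
  obtain ⟨a, ha, ha0, hs⟩ := h
  obtain ⟨a', ha', ha0', hs'⟩ := h'
  refine ⟨a * a', Finset.mul_mem_mul ha ha', mul_ne_zero ha0 ha0', ?_⟩
  have := hs.mul hs'
  rwa [show d * a * (d' * a') = d' * d * (a * a') by ring] at this

theorem Cl_sq {R : Finset ℕ} {d : ℕ} (h : Cl R d) (e : ℕ) : Cl R (d * (e * e)) := by
  obtain ⟨a, ha, ha0, hs⟩ := h
  refine ⟨a, ha, ha0, ?_⟩
  have := hs.mul (⟨e, rfl⟩ : IsSquare (e * e))
  rwa [show d * a * (e * e) = d * (e * e) * a by ring] at this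

theorem tAl_tmul {R R' : Finset ℕ} (j : ℕ) : ∀ {es x y : Tr}, tAl (Cl R) j x → tAl (Cl R') j y →
    tAl (Cl (R * R')) j (tmul j es x y) := by
  induction j with
  | zero => exact fun hx hy => fAl_fmul hx hy fun d d' => Cl_mul
  | succ j ih =>
    intro es x y hx hy
    have h1 : ∀ d, Cl (R * R') d → Cl (R * R') (d * vl (mul (fst es) (fst es))) := by
      intro d hd
      rw [vl_mul]
      exact Cl_sq hd _
    exact ⟨tAl_tadd j (tAl_tsc h1 j (ih hx.1 hy.1)) (ih hx.2 hy.2),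
      tAl_tsc h1 j (tAl_tadd j (ih hx.1 hy.2) (ih hx.2 hy.1))⟩

theorem tAl_nrm {R : Finset ℕ} {j : ℕ} {es x : Tr} (hx : tAl (Cl R) (j + 1) x) :
    tAl (Cl (R * R)) j (nrm j es x) := by
  have h1 : ∀ d, Cl (R * R) d → Cl (R * R) (d * vl (mul (fst es) (fst es))) := by
    intro d hd
    rw [vl_mul]
    exact Cl_sq hd _
  exact tAl_tadd j (tAl_tsc h1 j (tAl_tmul j hx.1 hx.1)) (tAl_tneg j (tAl_tmul j hx.2 hx.2))

theorem Cl_le {R : Finset ℕ} (h1 : 1 ∈ R) {d : ℕ} (h : Cl R d) : Cl (R * R) d := by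
  obtain ⟨a, ha, ha0, hs⟩ := h
  exact ⟨a, by simpa using Finset.mul_mem_mul ha h1, ha0, hs⟩

theorem one_mem_pow {R : Finset ℕ} (h1 : 1 ∈ R) (n : ℕ) : 1 ∈ R ^ n := by
  induction n with
  | zero => simp
  | succ n ih => rw [pow_succ]; simpa using Finset.mul_mem_mul ih h1

theorem le0_spec (j : ℕ) : ∃ B : Polynomial ℕ, ∀ (R : Finset ℕ) (tab : Tr) (S : ℕ), 1 ∈ R →
    (∀ F, size F ≤ S → Al (Cl (R ^ 2 ^ j)) (fst F) → Al (Cl (R ^ 2 ^ j)) (snd F) → (lt0 tab F ≠ leaf ↔ fv F ≤ 0)) →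
    ∀ es x, pos j es → tAl (Cl R) j x → B.eval (size (node es x)) ≤ S → (le0 j tab es x ≠ leaf ↔ tv j es x ≤ 0) := by
  induction j with
  | zero =>
    refine ⟨Polynomial.X, fun R tab S _ h es x _ hx hS => ?_⟩
    rw [Polynomial.eval_X] at hS
    simp only [size] at hS
    refine h x (by omega) ?_ ?_
    · rw [pow_zero, pow_one]; exact hx.1
    · rw [pow_zero, pow_one]; exact hx.2
  | succ j ih =>
    obtain ⟨B, hB⟩ := ih
    obtain ⟨p, hp⟩ := (nrm' j (FP.fst' FP.id') (FP.snd' FP.id')).size_bound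
    obtain ⟨p', hp'⟩ := (tneg' j (nrm' j (FP.fst' FP.id') (FP.snd' FP.id'))).size_bound
    refine ⟨B.comp (2 * Polynomial.X + p + p'), fun R tab S h1 h es x hpos hx hS => ?_⟩
    rw [Polynomial.eval_comp] at hS
    simp only [Polynomial.eval_add, Polynomial.eval_mul, Polynomial.eval_X, Polynomial.eval_ofNat] at hS
    have e1 := hp (node es x)
    have e2 := hp' (node es x)
    simp only [fst, snd] at e1 e2
    have e3 := size_snd_le es
    have e4 := size_fst_le x
    have e5 := size_snd_le x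
    have e6 : size (node es x) = size es + size x + 1 := rfl
    have hR : ∀ F, size F ≤ S → Al (Cl ((R * R) ^ 2 ^ j)) (fst F) → Al (Cl ((R * R) ^ 2 ^ j)) (snd F) →
        (lt0 tab F ≠ leaf ↔ fv F ≤ 0) := by
      intro F hF h2 h3
      have e : (R * R) ^ 2 ^ j = R ^ 2 ^ (j + 1) := by
        rw [← pow_two, ← pow_mul, pow_succ' 2 j]
      rw [e] at h2 h3
      exact h F hF h2 h3
    have h11 : 1 ∈ R * R := by simpa using Finset.mul_mem_mul h1 h1
    have e7 : ∀ y, size (node (snd es) y) = size (snd es) + size y + 1 := fun _ => rfl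
    have k1 := hB (R * R) tab S h11 hR (snd es) (fst x) hpos.2 (tAl_mono (fun d => Cl_le h1) j hx.1)
      ((poly_mono B (by rw [e7]; omega)).trans hS)
    have k2 := hB (R * R) tab S h11 hR (snd es) (snd x) hpos.2 (tAl_mono (fun d => Cl_le h1) j hx.2)
      ((poly_mono B (by rw [e7]; omega)).trans hS)
    have k3 := hB (R * R) tab S h11 hR (snd es) (nrm j es x) hpos.2 (tAl_nrm hx)
      ((poly_mono B (by rw [e7]; omega)).trans hS)
    have k4 := hB (R * R) tab S h11 hR (snd es) (tneg j (nrm j es x)) hpos.2 (tAl_tneg j (tAl_nrm hx))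
      ((poly_mono B (by rw [e7]; omega)).trans hS)
    rw [tv_tneg, tv_nrm j es x hpos.2] at k4
    rw [tv_nrm j es x hpos.2] at k3
    have hK := kk_pos hpos.2
    have he : (0 : ℝ) < vl (fst es) := by exact_mod_cast Nat.pos_of_ne_zero hpos.1
    rw [tv, sgn_iff he, le0]
    have m1 : ∀ z : ℝ, kk j (snd es) * z ≤ 0 ↔ z ≤ 0 := fun z =>
      ⟨fun h => nonpos_of_mul_nonpos_right h hK, fun h => mul_nonpos_of_nonneg_of_nonpos hK.le h⟩
    have m2 : ∀ z : ℝ, -(kk j (snd es) * z) ≤ 0 ↔ 0 ≤ z := fun z => by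
      rw [neg_nonpos]
      exact ⟨fun h => nonneg_of_mul_nonneg_right h hK, fun h => mul_nonneg hK.le h⟩
    rw [m1] at k3
    rw [m2] at k4
    by_cases c1 : le0 j tab (snd es) (fst x) = leaf
    · rw [if_pos c1]
      have d1 : ¬ tv j (snd es) (fst x) ≤ 0 := fun h => k1.2 h c1
      by_cases c2 : le0 j tab (snd es) (snd x) = leaf
      · rw [if_pos c2]
        have d2 : ¬ tv j (snd es) (snd x) ≤ 0 := fun h => k2.2 h c2
        tauto
      · rw [if_neg c2]
        have d2 := k2.1 c2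
        tauto
    · rw [if_neg c1]
      have d1 := k1.1 c1
      by_cases c2 : le0 j tab (snd es) (snd x) = leaf
      · rw [if_pos c2]
        have d2 : ¬ tv j (snd es) (snd x) ≤ 0 := fun h => k2.2 h c2
        tauto
      · rw [if_neg c2]
        have d2 := k2.1 c2
        have d3 : bit true ≠ leaf := by simp [bit]
        tauto

end Pool.Agent.H84.PP
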